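import Pool.Agent.MP_d3ab35_lc.H50.Core

/-!
The combinatorial core over worlds with linear constraint states.
-/

set_option autoImplicit false

namespace Pool.Agent.MP_d3ab35_lc.H19

open Finset
open Pool.Agent.MP_d3ab35_lc.H50 (DT)

/-- worlds, constraint states, pivot sets and virtual bits -/
structure Flip (Ω S : Type) where
  K : Type
  Ag : K → Ω → Ω → Prop
  Ok : K → Finset S → Prop
  bit : Ω → S → Bool
  k0 : K
  w0 : Ω
  ok0 : Ok k0 ∅
  refl : ∀ k ω, Ag k ω ω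
  trans : ∀ k ω ω' ω'', Ag k ω ω' → Ag k ω' ω'' → Ag k ω ω''
  mono : ∀ k D D', Ok k D → D ⊆ D' → Ok k D'
  flip : ∀ k D ω (V : S → Bool), Ok k D → (∀ s ∈ D, V s = bit ω s) →
    ∃ ω', Ag k ω ω' ∧ bit ω' = V
  lim : ∀ (k : ℕ → K) (c ω : ℕ → Ω), (∀ n m, n ≤ m → Ag (k n) (c n) (ω m)) →
    ∃ ω', (∀ n, Ag (k n) (c n) ω') ∧ ∀ s n, ∃ m, n ≤ m ∧ bit ω' s = bit (ω m) s

variable {Ω S U : Type} [DecidableEq S]

namespace Flip

variable (F : Flip Ω S)

/-- order of constraint states -/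
def KLe (k k' : F.K) : Prop := ∀ ω ω', F.Ag k' ω ω' → F.Ag k ω ω'

/-- the relation `e` can be enforced by one more pivot, of weight at most `w` -/
def Step (wt : S → ℕ) (w : ℕ) (e : Ω → Ω → Prop) : Prop :=
  ∀ k D, F.Ok k D → ∃ k' s, F.Ok k' (insert s D) ∧ wt s ≤ w ∧ F.KLe k k' ∧
    ∀ ω ω', F.Ag k' ω ω' → e ω ω'

/-- the relation `e` can be enforced by pivots of total weight at most `w` -/
def Batch (wt : S → ℕ) (w : ℕ) (e : Ω → Ω → Prop) : Prop :=
  ∀ k D, F.Ok k D → ∃ k' τ, F.Ok k' (D ∪ τ) ∧ ∑ s ∈ τ, wt s ≤ w ∧ F.KLe k k' ∧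
    ∀ ω ω', F.Ag k' ω ω' → e ω ω'

/-- the relation `e` can be enforced in at most `c` steps of weight at most `w` -/
def Chain (wt : S → ℕ) (c w : ℕ) (e : Ω → Ω → Prop) : Prop :=
  ∃ l : List (Ω → Ω → Prop), l.length ≤ c ∧ (∀ e' ∈ l, F.Step wt w e') ∧
    ∀ ω ω', (∀ e' ∈ l, e' ω ω') → e ω ω'

variable {F}

omit [DecidableEq S] in
lemma KLe.rfl' (k : F.K) : F.KLe k k := fun _ _ h => h

omit [DecidableEq S] in
lemma KLe.trans' {k k' k'' : F.K} (h : F.KLe k k') (h' : F.KLe k' k'') : F.KLe k k'' :=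
  fun ω ω' a => h ω ω' (h' ω ω' a)

lemma Batch.and {wt : S → ℕ} {w w' : ℕ} {e e' : Ω → Ω → Prop} (h : F.Batch wt w e)
    (h' : F.Batch wt w' e') : F.Batch wt (w + w') fun ω ω' => e ω ω' ∧ e' ω ω' := by
  intro k D hD
  obtain ⟨k1, τ1, a1, a2, a3, a4⟩ := h k D hD
  obtain ⟨k2, τ2, b1, b2, b3, b4⟩ := h' k1 _ a1
  refine ⟨k2, τ1 ∪ τ2, by rwa [← union_assoc], ?_, a3.trans' b3,
    fun ω ω' c => ⟨a4 ω ω' (b3 ω ω' c), b4 ω ω' c⟩⟩
  have := sum_union_inter (s₁ := τ1) (s₂ := τ2) (f := wt)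
  omega

lemma Batch.imp {wt : S → ℕ} {w w' : ℕ} {e e' : Ω → Ω → Prop} (h : F.Batch wt w e) (hw : w ≤ w')
    (he : ∀ ω ω', e ω ω' → e' ω ω') : F.Batch wt w' e' := by
  intro k D hD
  obtain ⟨k1, τ1, a1, a2, a3, a4⟩ := h k D hD
  exact ⟨k1, τ1, a1, a2.trans hw, a3, fun ω ω' c => he ω ω' (a4 ω ω' c)⟩

lemma Batch.triv (wt : S → ℕ) : F.Batch wt 0 fun _ _ => True := fun k D hD =>
  ⟨k, ∅, by simpa using hD, by simp, .rfl' k, fun _ _ _ => trivial⟩

lemma Step.batch {wt : S → ℕ} {w : ℕ} {e : Ω → Ω → Prop} (h : F.Step wt w e) : F.Batch wt w e := by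
  intro k D hD
  obtain ⟨k1, s, a1, a2, a3, a4⟩ := h k D hD
  exact ⟨k1, {s}, F.mono _ _ _ a1 (by intro x; simp only [mem_insert, mem_union, mem_singleton]; tauto),
    by simpa using a2, a3, a4⟩

lemma Chain.batch {wt : S → ℕ} {c w : ℕ} {e : Ω → Ω → Prop} (h : F.Chain wt c w e) :
    F.Batch wt (c * w) e := by
  obtain ⟨l, h1, h2, h3⟩ := h
  have key : ∀ l : List (Ω → Ω → Prop), (∀ e' ∈ l, F.Step wt w e') →
      F.Batch wt (l.length * w) fun ω ω' => ∀ e' ∈ l, e' ω ω' := by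
    intro l
    induction l with
    | nil => intro _; exact (Batch.triv wt).imp (by simp) (by simp)
    | cons a l ih =>
      intro h
      refine ((h a (by simp)).batch.and (ih fun e' he => h e' (by simp [he]))).imp ?_ ?_
      · simp only [List.length_cons]; rw [Nat.succ_mul]; omega
      · intro ω ω' h e' he
        rcases List.mem_cons.1 he with rfl | he
        · exact h.1
        · exact h.2 e' he
  exact (key l h2).imp (Nat.mul_le_mul_right _ h1) h3

lemma Batch.finset {ι : Type} {wt : S → ℕ} {w : ι → ℕ} {e : ι → Ω → Ω → Prop}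
    (h : ∀ i, F.Batch wt (w i) (e i)) (I : Finset ι) :
    F.Batch wt (∑ i ∈ I, w i) fun ω ω' => ∀ i ∈ I, e i ω ω' := by
  classical
  induction I using Finset.induction_on with
  | empty => exact (Batch.triv wt).imp (by simp) (by simp)
  | insert i I hi ih =>
    refine ((h i).and ih).imp (by rw [sum_insert hi]) fun ω ω' h j hj => ?_
    rcases mem_insert.1 hj with rfl | hj
    · exact h.1
    · exact h.2 j hj

end Flip

/-- weighted depth of a tree -/
def wdepth {Q : Type} (cost : Q → ℕ) : DT Q → ℕ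
  | .leaf _ => 0
  | .node q t f => max (wdepth cost t) (wdepth cost f) + cost q

/-- the data of the nondeterministic side -/
structure Sys (Ω S U : Type) [DecidableEq S] where
  F : Flip Ω S
  wt : S → ℕ
  sz : U → ℕ
  N : U → Ω → Prop
  own : S → Option U
  blk : U → Finset S
  H : ℕ → ℕ
  wt_pos : ∀ s, 1 ≤ wt s
  own_blk : ∀ u s, s ∈ blk u → own s = some u
  own_wt : ∀ s u, own s = some u → 2 * sz u < wt s
  card_blk : ∀ u, 2 * H (sz u) ≤ (blk u).card
  cert : ∀ u ω, N u ω → F.Batch wt (sz u) fun ω1 ω2 => ω1 = ω → N u ω2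
  h1 : ∀ m, 2 * m < H m

/-- finite conditions -/
structure Cond (F : Flip Ω S) where
  k : F.K
  D : Finset S
  ω : Ω
  ok : F.Ok k D

section

variable {F : Flip Ω S}

/-- the world satisfies the condition -/
def Cond.Sat (C : Cond F) (ω : Ω) : Prop :=
  F.Ag C.k C.ω ω ∧ ∀ s ∈ C.D, F.bit ω s = F.bit C.ω s

/-- extension of conditions -/
def Cond.Le (C C' : Cond F) : Prop := C.D ⊆ C'.D ∧ F.KLe C.k C'.k ∧ C.Sat C'.ω

omit [DecidableEq S] in
lemma Cond.Le.refl (C : Cond F) : C.Le C :=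
  ⟨Subset.refl _, .rfl' _, F.refl _ _, fun _ _ => rfl⟩

omit [DecidableEq S] in
lemma Cond.Le.sat {C C' : Cond F} (h : C.Le C') {ω : Ω} (hA : C'.Sat ω) : C.Sat ω :=
  ⟨F.trans _ _ _ _ h.2.2.1 (h.2.1 _ _ hA.1), fun s hs => (hA.2 s (h.1 hs)).trans (h.2.2.2 s hs)⟩

omit [DecidableEq S] in
lemma Cond.Le.trans {C C' C'' : Cond F} (h : C.Le C') (h' : C'.Le C'') : C.Le C'' :=
  ⟨h.1.trans h'.1, h.2.1.trans' h'.2.1, h.sat h'.2.2⟩

end

namespace Sys

variable (X : Sys Ω S U)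

/-- every positive code is correct -/
def Sound (ω : Ω) : Prop := ∀ s u, X.F.bit ω s = true → X.own s = some u → X.N u ω

/-- the condition forces the instance -/
def Forces (C : Cond X.F) (u : U) : Prop := ∀ ω, C.Sat ω → X.N u ω

/-- every positive code of the condition is forced -/
def SoundC (C : Cond X.F) : Prop :=
  ∀ s ∈ C.D, X.F.bit C.ω s = true → ∀ u, X.own s = some u → X.Forces C u

/-- the instance is decided -/
def Dec (C : Cond X.F) (u : U) : Prop :=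
  (∃ s ∈ X.blk u, s ∈ C.D ∧ X.F.bit C.ω s = true) ∨ ∀ ω, C.Sat ω → X.Sound ω → ¬ X.N u ω

open Classical in
/-- the positions that count -/
noncomputable def Z (C : Cond X.F) : Finset S :=
  C.D.filter fun s => ∀ u, X.own s = some u → ¬ X.Dec C u

/-- number of fixed positions of a block -/
def z (C : Cond X.F) (u : U) : ℕ := (X.blk u ∩ C.D).card

variable {X}

lemma Forces.mono {C C' : Cond X.F} {u : U} (h : X.Forces C u) (hle : C.Le C') : X.Forces C' u :=
  fun A hA => h A (hle.sat hA)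

lemma Dec.mono {C C' : Cond X.F} {u : U} (h : X.Dec C u) (hle : C.Le C') : X.Dec C' u := by
  rcases h with ⟨s, h1, h2, h3⟩ | h
  · exact Or.inl ⟨s, h1, hle.1 h2, (hle.2.2.2 s h2).trans h3⟩
  · exact Or.inr fun A hA => h A (hle.sat hA)

lemma mem_Z {C : Cond X.F} {s : S} :
    s ∈ X.Z C ↔ s ∈ C.D ∧ ∀ u, X.own s = some u → ¬ X.Dec C u := by
  classical
  simp only [Z, mem_filter]

lemma blk_sub_Z {C : Cond X.F} {u : U} (h : ¬ X.Dec C u) : X.blk u ∩ C.D ⊆ X.Z C := by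
  intro s hs
  rw [mem_inter] at hs
  refine mem_Z.2 ⟨hs.2, fun u' hu' => ?_⟩
  rw [X.own_blk u s hs.1] at hu'
  cases hu'
  exact h

lemma pathTree {ω : Ω} (hA : X.Sound ω) (n : ℕ) : ∀ u, X.sz u = n → X.N u ω →
    ∀ k D, X.F.Ok k D → ∃ k' τ, X.F.Ok k' (D ∪ τ) ∧ X.F.KLe k k' ∧
      ∑ s ∈ τ, X.wt s ≤ 2 * X.sz u ∧ (∀ ω', X.F.Ag k' ω ω' → X.N u ω') ∧
      ∀ s ∈ τ, X.F.bit ω s = true → ∀ u', X.own s = some u' →
        ∀ ω', X.F.Ag k' ω ω' → X.N u' ω' := by
  induction n using Nat.strong_induction_on with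
  | _ n ih =>
    intro u hu hN k D hD
    obtain ⟨k1, Q, hok, hQ, hk1, hQf⟩ := X.cert u ω hN k D hD
    have key : ∀ σ : Finset S, σ ⊆ Q → ∃ k' τ, X.F.Ok k' (D ∪ Q ∪ τ) ∧ X.F.KLe k1 k' ∧
        ∑ s ∈ τ, X.wt s ≤ ∑ s ∈ σ, X.wt s ∧
        ∀ s ∈ σ ∪ τ, X.F.bit ω s = true → ∀ u', X.own s = some u' →
          ∀ ω', X.F.Ag k' ω ω' → X.N u' ω' := by
      intro σ
      induction σ using Finset.induction_on with
      | empty => intro _; exact ⟨k1, ∅, by simpa using hok, .rfl' _, le_rfl, by simp⟩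
      | insert s σ hs ihσ =>
        intro hsub
        obtain ⟨k2, τ, a1, a2, a3, a4⟩ := ihσ ((subset_insert _ _).trans hsub)
        rw [sum_insert hs]
        by_cases h : X.F.bit ω s = true ∧ ∃ u', X.own s = some u'
        · obtain ⟨h1, u', h2⟩ := h
          have h3 := X.own_wt s u' h2
          have h4 : X.wt s ≤ ∑ s ∈ Q, X.wt s :=
            single_le_sum (fun _ _ => Nat.zero_le _) (hsub (mem_insert_self _ _))
          obtain ⟨k3, τ', b1, b2, b3, b4, b5⟩ := ih (X.sz u') (by omega) u' rfl (hA s u' h1 h2) k2 _ a1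
          refine ⟨k3, τ ∪ τ', by rwa [← union_assoc], a2.trans' b2, ?_, ?_⟩
          · have := sum_union_inter (s₁ := τ) (s₂ := τ') (f := X.wt)
            omega
          · intro s' hs' e u'' hu'' ω' hω'
            simp only [mem_union, mem_insert] at hs'
            rcases hs' with (rfl | hs') | hs' | hs'
            · rw [h2] at hu''
              cases hu''
              exact b4 ω' hω'
            · exact a4 s' (mem_union_left _ hs') e u'' hu'' ω' (b2 _ _ hω')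
            · exact a4 s' (mem_union_right _ hs') e u'' hu'' ω' (b2 _ _ hω')
            · exact b5 s' hs' e u'' hu'' ω' hω'
        · refine ⟨k2, τ, a1, a2, by omega, fun s' hs' e u'' hu'' => ?_⟩
          simp only [mem_union, mem_insert] at hs'
          rcases hs' with (rfl | hs') | hs'
          · exact absurd ⟨e, u'', hu''⟩ h
          · exact a4 s' (mem_union_left _ hs') e u'' hu''
          · exact a4 s' (mem_union_right _ hs') e u'' hu''
    obtain ⟨k2, τ, a1, a2, a3, a4⟩ := key Q (Subset.refl _)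
    refine ⟨k2, Q ∪ τ, by rwa [← union_assoc], hk1.trans' a2, ?_,
      fun ω' h => hQf ω ω' (a2 _ _ h) rfl, a4⟩
    have := sum_union_inter (s₁ := Q) (s₂ := τ) (f := X.wt)
    omega

lemma decide {C : Cond X.F} (hC : X.SoundC C) {u : U} (hz : X.z C u < 2 * X.H (X.sz u)) :
    ∃ (C' : Cond X.F) (τ : Finset S), C.Le C' ∧ X.SoundC C' ∧ X.Dec C' u ∧
      τ.card ≤ 2 * X.sz u ∧ (∀ s ∈ τ, ∀ u', X.own s = some u' → X.sz u' < X.sz u) ∧
      ∀ s ∈ C'.D, s ∈ C.D ∨ s ∈ τ ∨ s ∈ X.blk u := by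
  by_cases h : ∃ A, C.Sat A ∧ X.Sound A ∧ X.N u A
  swap
  · exact ⟨C, ∅, .refl C, hC, Or.inr fun A h1 h2 h3 => h ⟨A, h1, h2, h3⟩, by simp, by simp,
      fun s hs => Or.inl hs⟩
  obtain ⟨A, h1, h2, h3⟩ := h
  obtain ⟨k', τ, a0, ak, a1, a2, a3⟩ := pathTree h2 _ u rfl h3 C.k C.D C.ok
  obtain ⟨s0, b1, b2⟩ : ∃ s0 ∈ X.blk u, s0 ∉ C.D := by
    by_contra hc
    push Not at hc
    have : X.blk u ∩ C.D = X.blk u := inter_eq_left.2 hc
    have h5 := X.card_blk u
    rw [z, this] at hz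
    omega
  have hw : ∀ s ∈ τ, X.wt s ≤ 2 * X.sz u := fun s hs =>
    (single_le_sum (f := X.wt) (fun _ _ => Nat.zero_le _) hs).trans a1
  have b3 : s0 ∉ τ := fun hs => by
    have := X.own_wt s0 u (X.own_blk u s0 b1)
    have := hw s0 hs
    omega
  have hne : ∀ s ∈ C.D ∪ τ, s ≠ s0 := fun s hs e => by
    rcases mem_union.1 hs with h | h
    · exact b2 (e ▸ h)
    · exact b3 (e ▸ h)
  obtain ⟨A', c1, c2⟩ := X.F.flip k' _ A (Function.update (X.F.bit A) s0 true) a0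
    fun s hs => Function.update_of_ne (hne s hs) _ _
  have c3 : ∀ s ∈ C.D ∪ τ, X.F.bit A' s = X.F.bit A s := fun s hs => by
    rw [c2, Function.update_of_ne (hne s hs)]
  let C' : Cond X.F := ⟨k', insert s0 (C.D ∪ τ), A', X.F.mono _ _ _ a0 (subset_insert _ _)⟩
  have l1 : C.Le C' :=
    ⟨subset_union_left.trans (subset_insert _ _), ak, X.F.trans _ _ _ _ h1.1 (ak _ _ c1),
      fun s hs => (c3 s (mem_union_left _ hs)).trans (h1.2 s hs)⟩
  have l2 : ∀ ω, C'.Sat ω → X.F.Ag k' A ω := fun ω h => X.F.trans _ _ _ _ c1 h.1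
  refine ⟨C', τ, l1, ?_, Or.inl ⟨s0, b1, mem_insert_self _ _, by simp [C', c2]⟩, ?_, ?_, ?_⟩
  · intro s hs e u' hu'
    rcases mem_insert.1 hs with rfl | hs
    · rw [X.own_blk u s b1] at hu'
      cases hu'
      exact fun ω h => a2 ω (l2 ω h)
    · rcases mem_union.1 hs with hs' | hs'
      · exact (hC s hs' ((l1.2.2.2 s hs').symm.trans e) u' hu').mono l1
      · exact fun ω h => a3 s hs' ((c3 s hs).symm.trans e) u' hu' ω (l2 ω h)
  · calc τ.card = ∑ _s ∈ τ, 1 := card_eq_sum_ones τ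
      _ ≤ ∑ s ∈ τ, X.wt s := sum_le_sum fun s _ => X.wt_pos s
      _ ≤ _ := a1
  · intro s hs u' hu'
    have := X.own_wt s u' hu'
    have := hw s hs
    omega
  · intro s hs
    rcases mem_insert.1 hs with rfl | hs
    · exact Or.inr (Or.inr b1)
    · rcases mem_union.1 hs with hs | hs
      · exact Or.inl hs
      · exact Or.inr (Or.inl hs)

lemma decide' {C : Cond X.F} (hC : X.SoundC C) {u : U} (hu : ¬ X.Dec C u)
    (hz : X.z C u < 2 * X.H (X.sz u)) :
    ∃ C' : Cond X.F, C.Le C' ∧ X.SoundC C' ∧ X.Dec C' u ∧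
      (X.Z C').card + X.z C u ≤ (X.Z C).card + 2 * X.sz u ∧
      ∀ u', ¬ X.Dec C' u' → X.z C' u' ≤ X.z C u' + 2 * X.sz u ∧
        (X.sz u ≤ X.sz u' → X.z C' u' ≤ X.z C u') := by
  obtain ⟨C', τ, a1, a2, a3, a4, a5, a6⟩ := decide hC hz
  refine ⟨C', a1, a2, a3, ?_, fun u' hu' => ?_⟩
  · have h1 : X.Z C' ⊆ (X.Z C \ (X.blk u ∩ C.D)) ∪ τ := by
      intro s hs
      obtain ⟨b1, b2⟩ := mem_Z.1 hs
      have b3 : s ∉ X.blk u := fun h => b2 u (X.own_blk u s h) a3
      rcases a6 s b1 with h | h | h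
      · exact mem_union_left _ (mem_sdiff.2 ⟨mem_Z.2 ⟨h, fun u' e d => b2 u' e (d.mono a1)⟩,
          fun h' => b3 (mem_inter.1 h').1⟩)
      · exact mem_union_right _ h
      · exact absurd h b3
    have h2 := card_le_card h1
    have h3 := card_union_le (X.Z C \ (X.blk u ∩ C.D)) τ
    have h4 := card_sdiff_add_card_eq_card (blk_sub_Z hu)
    rw [z]
    omega
  · have hb : ∀ s ∈ X.blk u', s ∉ X.blk u := fun s h h' => by
      have e := (X.own_blk u' s h).symm.trans (X.own_blk u s h')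
      cases e
      exact hu' a3
    constructor
    · have h1 : X.blk u' ∩ C'.D ⊆ (X.blk u' ∩ C.D) ∪ τ := by
        intro s hs
        obtain ⟨b1, b2⟩ := mem_inter.1 hs
        rcases a6 s b2 with h | h | h
        · exact mem_union_left _ (mem_inter.2 ⟨b1, h⟩)
        · exact mem_union_right _ h
        · exact absurd h (hb s b1)
      have h2 := card_le_card h1
      have h3 := card_union_le (X.blk u' ∩ C.D) τ
      simp only [z]
      omega
    · intro hle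
      refine card_le_card fun s hs => ?_
      obtain ⟨b1, b2⟩ := mem_inter.1 hs
      rcases a6 s b2 with h | h | h
      · exact mem_inter.2 ⟨b1, h⟩
      · exact absurd (a5 s h u' (X.own_blk u' s b1)) (by omega)
      · exact absurd h (hb s b1)

variable (X) in
/-- good conditions at level `n` -/
structure Good (n : ℕ) (C : Cond X.F) : Prop where
  sound : X.SoundC C
  low : ∀ u, X.sz u < n → X.Dec C u
  calm : ∀ u, ¬ X.Dec C u → X.z C u < X.H (X.sz u)

lemma settle {n B : ℕ} (h2 : ∀ m m', X.H m ≤ B → n ≤ m' → 2 * m ≤ X.H m') (k : ℕ) :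
    ∀ C : Cond X.F, (X.Z C).card = k → k ≤ B → X.SoundC C → (∀ u, X.sz u < n → X.Dec C u) →
      (∀ u, ¬ X.Dec C u → X.z C u < 2 * X.H (X.sz u)) →
      ∃ C', C.Le C' ∧ X.Good n C' ∧ (X.Z C').card ≤ k := by
  induction k using Nat.strong_induction_on with
  | _ k ih =>
    intro C hk hB hs hl hf
    by_cases hc : ∃ m, ∃ u, X.sz u = m ∧ ¬ X.Dec C u ∧ X.H (X.sz u) ≤ X.z C u
    swap
    · refine ⟨C, .refl C, ⟨hs, hl, fun u hu => ?_⟩, hk.le⟩
      by_contra h
      exact hc ⟨_, u, rfl, hu, by omega⟩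
    classical
    obtain ⟨u, e, hu, hH⟩ := Nat.find_spec hc
    have hmin : ∀ u', X.sz u' < X.sz u → ¬ X.Dec C u' → X.z C u' < X.H (X.sz u') := by
      intro u' h1 h3
      by_contra h
      exact Nat.find_min hc (e ▸ h1) ⟨u', rfl, h3, by omega⟩
    obtain ⟨C1, a1, a2, -, a4, a5⟩ := decide' hs hu (hf u hu)
    have b1 := X.h1 (X.sz u)
    have b2 : X.z C u ≤ k := hk ▸ card_le_card (blk_sub_Z hu)
    obtain ⟨C2, c1, c2, c3⟩ := ih (X.Z C1).card (by omega) C1 rfl (by omega) a2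
      (fun u' h => (hl u' h).mono a1) (fun u' h => by
        have h0 : ¬ X.Dec C u' := fun d => h (d.mono a1)
        obtain ⟨d1, d2⟩ := a5 u' h
        by_cases hle : X.sz u ≤ X.sz u'
        · exact (d2 hle).trans_lt (hf u' h0)
        · have d3 := hmin u' (by omega) h0
          have d4 := h2 (X.sz u) (X.sz u') (by omega) (by
            by_contra d5
            exact h0 (hl u' (by omega)))
          omega)
    exact ⟨C2, a1.trans c1, c2, by omega⟩

lemma query {n B : ℕ} (h2 : ∀ m m', X.H m ≤ B → n ≤ m' → 2 * m ≤ X.H m') {C : Cond X.F}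
    (hC : X.Good n C) (hB : (X.Z C).card + 1 ≤ B) {w : ℕ} {e : Ω → Ω → Prop}
    (he : X.F.Step X.wt w e) :
    ∃ C', C.Le C' ∧ X.Good n C' ∧ (X.Z C').card ≤ (X.Z C).card + 1 ∧
      ∀ ω ω', X.F.Ag C'.k ω ω' → e ω ω' := by
  obtain ⟨k', s, o1, -, o2, o3⟩ := he C.k C.D C.ok
  obtain ⟨A, p1, p2⟩ := X.F.flip C.k C.D C.ω
    (fun s' => if s' ∈ C.D then X.F.bit C.ω s' else false) C.ok fun s' hs' => if_pos hs'
  let C1 : Cond X.F := ⟨k', insert s C.D, A, o1⟩
  have l1 : C.Le C1 := ⟨subset_insert _ _, o2, p1, fun s' hs' => by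
    simp only [C1, p2, if_pos hs']⟩
  have hZ : (X.Z C1).card ≤ (X.Z C).card + 1 := by
    refine le_trans (card_le_card fun s' hs' => ?_) (card_insert_le s (X.Z C))
    obtain ⟨b1, b2⟩ := mem_Z.1 hs'
    rcases mem_insert.1 b1 with h | h
    · exact mem_insert.2 (Or.inl h)
    · exact mem_insert_of_mem (mem_Z.2 ⟨h, fun u e d => b2 u e (d.mono l1)⟩)
  obtain ⟨C', a1, a2, a3⟩ := settle h2 _ C1 rfl (hZ.trans hB) (by
      intro s' _ e u hu
      by_cases h : s' ∈ C.D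
      · exact (hC.sound s' h ((l1.2.2.2 s' h).symm.trans e) u hu).mono l1
      · simp [C1, p2, h] at e)
    (fun u h => (hC.low u h).mono l1) (fun u h => by
      have b1 := hC.calm u fun d => h (d.mono l1)
      have b2 : X.z C1 u ≤ X.z C u + 1 := by
        refine le_trans (card_le_card fun s' hs' => ?_) (card_insert_le s (X.blk u ∩ C.D))
        obtain ⟨c1, c2⟩ := mem_inter.1 hs'
        rcases mem_insert.1 c2 with h | h
        · exact mem_insert.2 (Or.inl h)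
        · exact mem_insert_of_mem (mem_inter.2 ⟨c1, h⟩)
      have b3 := X.h1 (X.sz u)
      omega)
  exact ⟨C', l1.trans a1, a2, a3.trans hZ, fun ω ω' h => o3 ω ω' (a1.2.1 _ _ h)⟩

lemma chain {n B : ℕ} (h2 : ∀ m m', X.H m ≤ B → n ≤ m' → 2 * m ≤ X.H m') {C : Cond X.F}
    (hC : X.Good n C) {c w : ℕ} (hB : (X.Z C).card + c ≤ B) {e : Ω → Ω → Prop}
    (he : X.F.Chain X.wt c w e) :
    ∃ C', C.Le C' ∧ X.Good n C' ∧ (X.Z C').card ≤ (X.Z C).card + c ∧
      ∀ ω ω', X.F.Ag C'.k ω ω' → e ω ω' := by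
  obtain ⟨l, h1, h3, h4⟩ := he
  have key : ∀ l : List (Ω → Ω → Prop), (∀ e' ∈ l, X.F.Step X.wt w e') →
      (X.Z C).card + l.length ≤ B → ∃ C', C.Le C' ∧ X.Good n C' ∧
        (X.Z C').card ≤ (X.Z C).card + l.length ∧
        ∀ ω ω', X.F.Ag C'.k ω ω' → ∀ e' ∈ l, e' ω ω' := by
    intro l
    induction l with
    | nil => intro _ _; exact ⟨C, .refl C, hC, by simp, by simp⟩
    | cons a l ih =>
      intro h hB
      simp only [List.length_cons] at hB ⊢
      obtain ⟨C1, a1, a2, a3, a4⟩ := ih (fun e' he => h e' (by simp [he])) (by omega)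
      obtain ⟨C2, b1, b2, b3, b4⟩ := query h2 a2 (by omega) (h a (by simp))
      refine ⟨C2, a1.trans b1, b2, by omega, fun ω ω' hω e' he => ?_⟩
      rcases List.mem_cons.1 he with rfl | he
      · exact b4 ω ω' hω
      · exact a4 ω ω' (b1.2.1 _ _ hω) e' he
  obtain ⟨C', a1, a2, a3, a4⟩ := key l h3 (by omega)
  exact ⟨C', a1, a2, by omega, fun ω ω' h => h4 ω ω' (a4 ω ω' h)⟩

lemma tree {Q : Type} {ans : Ω → Q → Bool} {cost : Q → ℕ}
    (hq : ∀ q, ∃ w, X.F.Chain X.wt (cost q) w fun ω ω' => ans ω' q = ans ω q)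
    {n B : ℕ} (h2 : ∀ m m', X.H m ≤ B → n ≤ m' → 2 * m ≤ X.H m') (t : DT Q) :
    ∀ C : Cond X.F, X.Good n C → (X.Z C).card + wdepth cost t ≤ B →
      ∃ C' b, C.Le C' ∧ X.Good n C' ∧ (X.Z C').card ≤ (X.Z C).card + wdepth cost t ∧
        ∀ A, C'.Sat A → t.eval (ans A) = b := by
  induction t with
  | leaf b => intro C hC _; exact ⟨C, b, .refl C, hC, by omega, fun _ _ => rfl⟩
  | node s t f iht ihf =>
    intro C hC hB
    simp only [wdepth] at hB ⊢
    obtain ⟨w, hw⟩ := hq s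
    obtain ⟨C1, a1, a2, a3, a4⟩ := chain h2 hC (by omega) hw
    cases e : ans C1.ω s with
    | true =>
      obtain ⟨C2, b, c1, c2, c3, c4⟩ := iht C1 a2 (by omega)
      refine ⟨C2, b, a1.trans c1, c2, by omega, fun A hA => ?_⟩
      simp only [DT.eval, (a4 _ _ (c1.sat hA).1).trans e, if_true]
      exact c4 A hA
    | false =>
      obtain ⟨C2, b, c1, c2, c3, c4⟩ := ihf C1 a2 (by omega)
      refine ⟨C2, b, a1.trans c1, c2, by omega, fun A hA => ?_⟩
      simp only [DT.eval, (a4 _ _ (c1.sat hA).1).trans e, Bool.false_eq_true, if_false]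
      exact c4 A hA

lemma trees {Q : Type} {ans : Ω → Q → Bool} {cost : Q → ℕ}
    (hq : ∀ q, ∃ w, X.F.Chain X.wt (cost q) w fun ω ω' => ans ω' q = ans ω q)
    {V : Type} {n B d : ℕ} (h2 : ∀ m m', X.H m ≤ B → n ≤ m' → 2 * m ≤ X.H m')
    (T : V → DT Q) (W : Finset V) : (∀ v ∈ W, wdepth cost (T v) ≤ d) →
    ∀ C : Cond X.F, X.Good n C → (X.Z C).card + W.card * d ≤ B →
      ∃ C', C.Le C' ∧ X.Good n C' ∧ (X.Z C').card ≤ (X.Z C).card + W.card * d ∧
        ∀ v ∈ W, ∃ b, ∀ A, C'.Sat A → (T v).eval (ans A) = b := by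
  classical
  induction W using Finset.induction_on with
  | empty => intro _ C hC _; exact ⟨C, .refl C, hC, by omega, by simp⟩
  | insert v W hv ih =>
    intro hd C hC hB
    rw [card_insert_of_notMem hv, Nat.succ_mul] at hB ⊢
    obtain ⟨C1, a1, a2, a3, a4⟩ := ih (fun v' h => hd v' (mem_insert_of_mem h)) C hC (by omega)
    have := hd v (mem_insert_self _ _)
    obtain ⟨C2, b, c1, c2, c3, c4⟩ := tree hq h2 (T v) C1 a2 (by omega)
    refine ⟨C2, a1.trans c1, c2, by omega, fun v' hv' => ?_⟩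
    rcases mem_insert.1 hv' with rfl | h
    · exact ⟨b, c4⟩
    · obtain ⟨b', hb'⟩ := a4 v' h
      exact ⟨b', fun A hA => hb' A (c1.sat hA)⟩

lemma forced {n : ℕ} (W : Finset U) : (∀ u ∈ W, X.sz u = n) → ∀ C : Cond X.F, X.Good n C →
    ∃ C', C.Le C' ∧ X.Good n C' ∧ (X.Z C').card ≤ (X.Z C).card + W.card * (2 * n) ∧
      ∀ u ∈ W, X.Dec C' u := by
  classical
  induction W using Finset.induction_on with
  | empty => intro _ C hC; exact ⟨C, .refl C, hC, by omega, by simp⟩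
  | insert u W hu ih =>
    intro hW C hC
    rw [card_insert_of_notMem hu, Nat.succ_mul]
    obtain ⟨C1, a1, a2, a3, a4⟩ := ih (fun v' h => hW v' (mem_insert_of_mem h)) C hC
    by_cases hd : X.Dec C1 u
    · exact ⟨C1, a1, a2, by omega, fun u' h => (mem_insert.1 h).elim (fun e => e ▸ hd) (a4 u')⟩
    have e := hW u (mem_insert_self _ _)
    obtain ⟨C2, c1, c2, c3, c4, c5⟩ := decide' a2.sound hd (by have := a2.calm u hd; omega)
    refine ⟨C2, a1.trans c1, ⟨c2, fun u' h => (a2.low u' h).mono c1, fun u' h => ?_⟩, by omega,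
      fun u' h => (mem_insert.1 h).elim (fun e => e ▸ c3) fun h => (a4 u' h).mono c1⟩
    have h0 : ¬ X.Dec C1 u' := fun d => h (d.mono c1)
    refine ((c5 u' h).2 ?_).trans_lt (a2.calm u' h0)
    by_contra d5
    exact h0 (a2.low u' (by omega))

lemma advice {V Y : Type} {n : ℕ} (W : Finset V) (Ad : Finset Y) (c : V → Y → S)
    (hinj : ∀ v a v' a', c v a = c v' a' → v = v' ∧ a = a') (hown : ∀ v a, X.own (c v a) = none)
    (b : V → Bool) {C : Cond X.F} (hC : X.Good n C) (hB : (X.Z C).card < Ad.card) :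
    ∃ C', C.Le C' ∧ X.Good n C' ∧ (X.Z C').card ≤ (X.Z C).card + W.card ∧
      ∃ a ∈ Ad, ∀ v ∈ W, ∀ A, C'.Sat A → X.F.bit A (c v a) = b v := by
  classical
  obtain ⟨a, ha, hfree⟩ : ∃ a ∈ Ad, ∀ v, c v a ∉ C.D := by
    by_contra hc
    push Not at hc
    choose g hg using hc
    have := card_le_card_of_injOn (s := Ad.attach) (t := X.Z C) (fun a => c (g a.1 a.2) a.1)
      (fun a _ => mem_coe.2 (mem_Z.2 ⟨hg a.1 a.2, fun u e => by rw [hown] at e; cases e⟩))
      (fun a _ a' _ e => Subtype.ext (hinj _ _ _ _ e).2)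
    rw [card_attach] at this
    omega
  let A' : S → Bool := fun s => if h : ∃ v, c v a = s then b h.choose else X.F.bit C.ω s
  have hA' : ∀ s ∈ C.D, A' s = X.F.bit C.ω s := fun s hs => by
    have : ¬ ∃ v, c v a = s := fun ⟨v, e⟩ => hfree v (e ▸ hs)
    simp only [A', dif_neg this]
  obtain ⟨ω', p1, p2⟩ := X.F.flip C.k C.D C.ω A' C.ok hA'
  let C' : Cond X.F := ⟨C.k, C.D ∪ W.image (fun v => c v a), ω',
    X.F.mono _ _ _ C.ok subset_union_left⟩
  have l1 : C.Le C' := ⟨subset_union_left, .rfl' _, p1, fun s hs => by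
    simp only [C', p2, hA' s hs]⟩
  have hnew : ∀ s ∈ C.D ∪ W.image (fun v => c v a), ∀ u, X.own s = some u → s ∈ C.D := by
    intro s hs u e
    rcases mem_union.1 hs with h | h
    · exact h
    · obtain ⟨v, -, rfl⟩ := mem_image.1 h
      rw [hown] at e
      cases e
  refine ⟨C', l1, ⟨?_, fun u h => (hC.low u h).mono l1, fun u h => ?_⟩, ?_, a, ha, ?_⟩
  · intro s hs e u hu
    have h := hnew s hs u hu
    exact (hC.sound s h ((l1.2.2.2 s h).symm.trans e) u hu).mono l1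
  · refine lt_of_le_of_lt (card_le_card fun s hs => ?_) (hC.calm u fun d => h (d.mono l1))
    obtain ⟨c1, c2⟩ := mem_inter.1 hs
    exact mem_inter.2 ⟨c1, hnew s c2 u (X.own_blk u s c1)⟩
  · refine le_trans (card_le_card (t := X.Z C ∪ W.image (fun v => c v a)) fun s hs => ?_)
      ((card_union_le _ _).trans (Nat.add_le_add_left card_image_le _))
    obtain ⟨b1, b2⟩ := mem_Z.1 hs
    rcases mem_union.1 b1 with h | h
    · exact mem_union_left _ (mem_Z.2 ⟨h, fun u e d => b2 u e (d.mono l1)⟩)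
    · exact mem_union_right _ h
  · intro v hv A hA
    rw [hA.2 _ (mem_union_right _ (mem_image_of_mem _ hv))]
    have h : ∃ v', c v' a = c v a := ⟨v, rfl⟩
    simp only [C', p2, A', dif_pos h]
    rw [(hinj _ _ _ _ h.choose_spec).1]

theorem core {Q V Y : Type} (X : Sys Ω S U) {ans : Ω → Q → Bool} {cost : Q → ℕ}
    (hq : ∀ q, ∃ w, X.F.Chain X.wt (cost q) w fun ω ω' => ans ω' q = ans ω q)
    (h2 : ∀ n m m', X.H m ≤ 8 ^ (n + 1) → n ≤ m' → 2 * m ≤ X.H m')
    (Un : ℕ → Finset U) (hU : ∀ n u, u ∈ Un n ↔ X.sz u = n) (hUc : ∀ n, (Un n).card ≤ 2 ^ n)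
    (Vn : ℕ → Finset V) (hVc : ∀ n, (Vn n).card ≤ 2 ^ n) (T : V → DT Q)
    (hT : ∀ n, ∀ v ∈ Vn n, wdepth cost (T v) ≤ 2 ^ n) (Ad : ℕ → Finset Y)
    (hAd : ∀ n, 8 ^ (n + 1) < (Ad n).card) (c : V → Y → S)
    (hinj : ∀ v a v' a', c v a = c v' a' → v = v' ∧ a = a') (hown : ∀ v a, X.own (c v a) = none) :
    ∃ A : Ω, X.Sound A ∧ (∀ u, X.N u A → ∃ s ∈ X.blk u, X.F.bit A s = true) ∧
      ∀ n, ∃ a ∈ Ad n, ∀ v ∈ Vn n, X.F.bit A (c v a) = (T v).eval (ans A) := by
  classical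
  have step : ∀ n (C : Cond X.F), ∃ C', X.Good n C → (X.Z C).card ≤ 8 ^ n →
      C.Le C' ∧ X.Good (n + 1) C' ∧ (X.Z C').card ≤ 8 ^ (n + 1) ∧
        ∃ a ∈ Ad n, ∀ v ∈ Vn n, ∀ A, C'.Sat A → X.F.bit A (c v a) = (T v).eval (ans A) := by
    intro n C
    by_cases h : X.Good n C ∧ (X.Z C).card ≤ 8 ^ n
    swap
    · exact ⟨C, fun a b => absurd ⟨a, b⟩ h⟩
    obtain ⟨hC, hB⟩ := h
    have hb := H50.Sys.budget n
    have e1 := Nat.mul_le_mul_right (2 * n) (hUc n)
    have e2 := Nat.mul_le_mul_right (2 ^ n) (hVc n)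
    have e3 := hVc n
    have e4 := hAd n
    obtain ⟨C1, a1, a2, a3, a4⟩ := forced (Un n) (fun u h => (hU n u).1 h) C hC
    obtain ⟨C2, b1, b2, b3, b4⟩ := trees hq (h2 n) T (Vn n) (hT n) C1 a2 (by omega)
    choose! bit hbit using b4
    obtain ⟨C3, c1, c2, c3, a, ha, c4⟩ := advice (Vn n) (Ad n) c hinj hown bit b2 (by omega)
    refine ⟨C3, fun _ _ => ⟨a1.trans (b1.trans c1), ⟨c2.sound, fun u h => ?_, c2.calm⟩, by omega,
      a, ha, fun v hv A hA => (c4 v hv A hA).trans (hbit v hv A (c1.sat hA)).symm⟩⟩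
    rcases Nat.lt_succ_iff_lt_or_eq.1 h with h | h
    · exact c2.low u h
    · exact (a4 u ((hU n u).2 h)).mono (b1.trans c1)
  choose nx hnx using step
  let C : ℕ → Cond X.F := fun n => Nat.rec ⟨X.F.k0, ∅, X.F.w0, X.F.ok0⟩ nx n
  have hG : ∀ n, X.Good n (C n) ∧ (X.Z (C n)).card ≤ 8 ^ n := by
    intro n
    induction n with
    | zero =>
      refine ⟨⟨fun s hs => absurd hs (notMem_empty s), fun u h => by omega, fun u _ => ?_⟩, ?_⟩
      · have := X.h1 (X.sz u)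
        have e : X.z (C 0) u = 0 := by simp [z, C]
        omega
      · have : X.Z (C 0) = ∅ := eq_empty_of_forall_notMem fun s hs => notMem_empty s (mem_Z.1 hs).1
        simp [this]
    | succ n ih => exact ⟨(hnx n _ ih.1 ih.2).2.1, (hnx n _ ih.1 ih.2).2.2.1⟩
  have hle : ∀ n m, n ≤ m → (C n).Le (C m) := by
    intro n m h
    induction m, h using Nat.le_induction with
    | base => exact .refl _
    | succ m _ ih => exact ih.trans (hnx m _ (hG m).1 (hG m).2).1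
  have hcl : ∀ n, ∃ ω, (C n).Sat ω ∧ ∀ s, X.F.bit ω s = true → s ∈ (C n).D := by
    intro n
    obtain ⟨A, p1, p2⟩ := X.F.flip (C n).k (C n).D (C n).ω
      (fun s' => if s' ∈ (C n).D then X.F.bit (C n).ω s' else false) (C n).ok
      fun s' hs' => if_pos hs'
    refine ⟨A, ⟨p1, fun s hs => by simp only [p2, if_pos hs]⟩, fun s hs => ?_⟩
    by_contra h
    simp [p2, h] at hs
  choose cl hcl1 hcl2 using hcl
  obtain ⟨A, q1, q2⟩ := X.F.lim (fun n => (C n).k) (fun n => (C n).ω) cl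
    fun n m h => ((hle n m h).sat (hcl1 m)).1
  have hA : ∀ n, (C n).Sat A := fun n => ⟨q1 n, fun s hs => by
    obtain ⟨m, h1, h3⟩ := q2 s n
    rw [h3]
    exact ((hle n m h1).sat (hcl1 m)).2 s hs⟩
  have hS : X.Sound A := by
    intro s u h1 h3
    obtain ⟨m, -, h4⟩ := q2 s 0
    have a := hcl2 m s (h4 ▸ h1)
    exact (hG m).1.sound s a (((hA m).2 s a).symm.trans h1) u h3 A (hA m)
  refine ⟨A, hS, fun u hu => ?_, fun n => ?_⟩
  · rcases (hG (X.sz u + 1)).1.low u (by omega) with ⟨s, a, b, e⟩ | h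
    · exact ⟨s, a, ((hA (X.sz u + 1)).2 s b).trans e⟩
    · exact absurd hu (h A (hA (X.sz u + 1)) hS)
  · obtain ⟨a, ha, h⟩ := (hnx n _ (hG n).1 (hG n).2).2.2.2
    exact ⟨a, ha, fun v hv => h v hv A (hA (n + 1))⟩

end Sys

end Pool.Agent.MP_d3ab35_lc.H19
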