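import Pool.Agent.MP_d3ab35_lc.H50.Defs

/-!
Bounds on the nondeterminism above the half-exponential threshold.
-/

set_option autoImplicit false

namespace Pool.Agent.MP_d3ab35_lc.H19

open N68a2faeb Pool.Agent.MP_d3ab35_lc.H50

/-- `f` is a positive, monotone, subpolynomial function, computable in polynomial time from a string
of length `n`, and `2 ^ f` is above the half-exponential threshold: `f (2 ^ (f n / k))` is
eventually at least `n ^ k`, for every `k`. -/
def Adm (f : ℕ → ℕ) : Prop :=
  0 < f 0 ∧ Monotone f ∧ Subpoly f ∧ IsPolyTime (fun x : List Bool => f x.length) ∧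
    ∀ k : ℕ, ∀ᶠ n : ℕ in Filter.atTop, n ^ k ≤ f (2 ^ (f n / k))

end Pool.Agent.MP_d3ab35_lc.H19
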