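import Pool.Agent.MP_d3ab35_lc.H19.Lin

/-!
The extension polynomials of a world and the cost of algebraic queries.
-/

set_option autoImplicit false

namespace Pool.Agent.MP_d3ab35_lc.H19

open Finset Pool.Agent.Shared.H56 MvPolynomial
open Pool.Agent.MP_d3ab35_lc.H50 (strs mem_strs card_strs)

section polys

variable {R : Type} [CommRing R]

/-- the multilinear indicator polynomial of a Boolean point -/
noncomputable def dP (R : Type) [CommRing R] (m : ℕ) (x : Str) : MvPolynomial (Fin m) R :=
  ∏ l : Fin m, if x.getD l false then X l else 1 - X l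

/-- its value -/
def dl (a : ℕ → R) (m : ℕ) (x : Str) : R :=
  ∏ l ∈ range m, if x.getD l false then a l else 1 - a l

/-- extension of a point by zero -/
def ext0 {m : ℕ} (a : Fin m → R) (l : ℕ) : R := if h : l < m then a ⟨l, h⟩ else 0

lemma eval_dP {m : ℕ} (a : Fin m → R) (x : Str) : eval a (dP R m x) = dl (ext0 a) m x := by
  rw [dP, map_prod, dl, prod_range]
  refine prod_congr rfl fun l _ => ?_
  split_ifs <;> simp [ext0]

lemma dl_append (a : ℕ → R) (n : ℕ) (z z' : Str) :
    dl a (z.length + n) (z ++ z') = dl a z.length z * dl (fun l => a (z.length + l)) n z' := by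
  rw [dl, prod_range_add]
  congr 1
  · refine prod_congr rfl fun l hl => ?_
    rw [List.getD_append _ _ _ _ (mem_range.1 hl)]
  · refine prod_congr rfl fun l _ => ?_
    rw [List.getD_append_right _ _ _ _ (by omega), Nat.add_sub_cancel_left]

lemma eval_dP_bool {m : ℕ} (y : Fin m → Bool) (x : Str) (hx : x.length = m) :
    eval (fun l => (bF (y l) : R)) (dP R m x) = if x = List.ofFn y then 1 else 0 := by
  rw [dP, map_prod]
  split_ifs with e
  · refine prod_eq_one fun l _ => ?_
    have : x.getD l false = y l := by simp [e]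
    rw [this]
    cases h : y l <;> simp [bF, h]
  · obtain ⟨l, hl⟩ : ∃ l : Fin m, x.getD l false ≠ y l := by
      by_contra c
      push Not at c
      refine e (List.ext_getElem (by simpa using hx) fun n h1 h2 => ?_)
      have := c ⟨n, hx ▸ h1⟩
      simpa [List.getD_eq_getElem?_getD, List.getElem?_eq_getElem h1] using this
    refine prod_eq_zero (mem_univ l) ?_
    revert hl
    cases x.getD l false <;> cases h : y l <;> simp [bF, h]

lemma degreeOf_dP [Nontrivial R] (m : ℕ) (x : Str) (l : Fin m) : (dP R m x).degreeOf l ≤ 1 := by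
  refine (degreeOf_prod_le _ _ _).trans ?_
  refine le_trans (sum_le_sum (g := fun l' => if l = l' then 1 else 0) fun l' _ => ?_) (by simp)
  have h1 : (X l' : MvPolynomial (Fin m) R).degreeOf l = if l = l' then 1 else 0 := degreeOf_X _ _
  by_cases h : x.getD l' false = true
  · rw [if_pos h, h1]
  · rw [if_neg h]
    refine (degreeOf_sub_le _ _ _).trans ?_
    rw [h1, degreeOf_one]
    simp

lemma sum_strs_add {M : Type} [AddCommMonoid M] (n n' : ℕ) (f : Str → M) :
    ∑ p ∈ strs (n + n'), f p = ∑ z ∈ strs n, ∑ z' ∈ strs n', f (z ++ z') := by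
  rw [← sum_product']
  symm
  refine sum_nbij' (fun q => q.1 ++ q.2) (fun p => (p.take n, p.drop n)) ?_ ?_ ?_ ?_ ?_
  · intro q hq
    simp only [mem_product, mem_strs] at hq ⊢
    simp [hq.1, hq.2]
  · intro p hp
    simp only [mem_product, mem_strs] at hp ⊢
    simp [hp]
  · intro q hq
    simp only [mem_product, mem_strs] at hq
    simp [List.take_left' hq.1, List.drop_left' hq.1]
  · intro p _
    simp
  · intro q _
    rfl

end polys

variable {ι : Type} {F : ι → Type} [∀ i, Field (F i)]

open Classical in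
/-- the extension polynomials -/
noncomputable def poly (ω : World F) (m : ℕ) (i : ι) : MvPolynomial (Fin m) (F i) :=
  if CharP (F i) 2 then ∑ p ∈ strs m, C (bF (ω.1 p)) * dP (F i) m p
  else ∑ p ∈ strs m, ∑ p' ∈ strs m, C (Mf ω i p p') * (dP (F i) m p * dP (F i) m p')

lemma poly_bool (ω : World F) (m : ℕ) (i : ι) (x : Fin m → Bool) :
    eval (fun l => bF (x l)) (poly ω m i) = bF (ω.1 (List.ofFn x)) := by
  have hx : List.ofFn x ∈ strs m := mem_strs.2 (by simp)
  unfold poly
  split_ifs
  · rw [map_sum, sum_eq_single_of_mem _ hx fun p hp e => by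
      rw [map_mul, eval_dP_bool x p (mem_strs.1 hp), if_neg e, mul_zero]]
    rw [map_mul, eval_dP_bool x _ (mem_strs.1 hx), if_pos rfl, mul_one, eval_C]
  · rw [map_sum, sum_eq_single_of_mem _ hx fun p hp e => by
      rw [map_sum]
      exact sum_eq_zero fun p' _ => by
        rw [map_mul, map_mul, eval_dP_bool x p (mem_strs.1 hp), if_neg e, zero_mul, mul_zero]]
    rw [map_sum, sum_eq_single_of_mem _ hx fun p hp e => by
      rw [map_mul, map_mul, eval_dP_bool x p (mem_strs.1 hp), if_neg e, mul_zero, mul_zero]]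
    rw [map_mul, map_mul, eval_dP_bool x _ (mem_strs.1 hx), if_pos rfl, mul_one, mul_one, eval_C,
      Mf, if_pos rfl]

lemma poly_lin (ω : World F) (m : ℕ) (i : ι) (l : Fin m) (h : CharP (F i) 2) :
    (poly ω m i).degreeOf l ≤ 1 := by
  rw [poly, if_pos h]
  refine (degreeOf_sum_le _ _ _).trans (Finset.sup_le fun p _ => ?_)
  exact (degreeOf_C_mul_le _ _ _).trans (degreeOf_dP m p l)

lemma poly_quad (ω : World F) (m : ℕ) (i : ι) (l : Fin m) : (poly ω m i).degreeOf l ≤ 2 := by
  by_cases h : CharP (F i) 2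
  · exact (poly_lin ω m i l h).trans (by omega)
  rw [poly, if_neg h]
  refine (degreeOf_sum_le _ _ _).trans (Finset.sup_le fun p _ => ?_)
  refine (degreeOf_sum_le _ _ _).trans (Finset.sup_le fun p' _ => ?_)
  refine (degreeOf_C_mul_le _ _ _).trans ((degreeOf_mul_le _ _ _).trans ?_)
  have := degreeOf_dP (R := F i) m p l
  have := degreeOf_dP (R := F i) m p' l
  omega

variable [∀ i, Finite (F i)]

lemma chain_one {c w : ℕ} {e : World F → World F → Prop} (h : (flipF F).Step wt w e) (hc : 1 ≤ c) :
    (flipF F).Chain wt c w e :=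
  ⟨[e], hc, by simpa using h, fun ω ω' h' => h' e (by simp)⟩

lemma chain_alg (i : ι) (m : ℕ) (a : Fin m → F i) (c : ℕ) (hc : Nat.card (F i) ≤ 2 ^ c) :
    (flipF F).Chain wt c (m + 1) fun ω ω' => eval a (poly ω' m i) = eval a (poly ω m i) := by
  have c1 : 1 ≤ c := by
    by_contra h
    have : 1 < Nat.card (F i) := Finite.one_lt_card
    rw [show c = 0 by omega] at hc
    omega
  by_cases h2 : CharP (F i) 2
  swap
  · refine chain_one (step_imp (step_fld i m (dl (ext0 a) m)) le_rfl fun ω ω' _ h => ?_) c1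
    rw [eq_comm, ← sub_eq_zero]
    simp only [poly, if_neg h2, map_sum, map_mul, eval_C, eval_dP, ← sum_sub_distrib]
    refine sum_eq_zero fun p hp => ?_
    have := congrArg (dl (ext0 a) m p * ·) (h p)
    simp only [func_apply, mul_sum, mul_zero] at this
    rw [← this]
    refine sum_congr rfl fun p' hp' => ?_
    rw [rowF, if_pos ((mem_strs.1 hp').trans (mem_strs.1 hp).symm)]
    ring
  by_cases e : m % 2 = 1
  · refine chain_one (step_imp (step_lin 0 0) (by omega) fun ω ω' h _ => ?_) c1
    simp only [poly, if_pos h2]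
    congr 1
    exact sum_congr rfl fun p hp => by rw [h p (by rw [mem_strs.1 hp]; exact e)]
  obtain ⟨h, rfl⟩ : ∃ h, m = h + h := ⟨m / 2, by omega⟩
  let _ : Algebra (ZMod 2) (F i) := ZMod.algebra (F i) 2
  have : Module.Finite (ZMod 2) (F i) := Module.Finite.of_finite
  let b := Module.finBasis (ZMod 2) (F i)
  refine ⟨List.ofFn fun j ω ω' => ∀ z, func h
    (fun z' => b.repr (dl (fun l => ext0 a (h + l)) h z') j) (row2 ω ω' z) = 0, ?_, ?_, ?_⟩
  · rw [List.length_ofFn]
    rw [Module.natCard_eq_pow_finrank (K := ZMod 2), Nat.card_zmod] at hc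
    exact (Nat.pow_le_pow_iff_right (by norm_num)).1 hc
  · intro e' he'
    obtain ⟨j, rfl⟩ := List.mem_ofFn.1 he'
    exact step_imp (step_lin h _) (by omega) fun _ _ _ h => h
  · intro ω ω' hω
    have key : ∀ z, ∑ z' ∈ strs h, row2 ω ω' z z' • dl (fun l => ext0 a (h + l)) h z' = 0 := by
      intro z
      refine b.repr.injective (Finsupp.ext fun j => ?_)
      have := hω _ (List.mem_ofFn.2 ⟨j, rfl⟩) z
      rw [func_apply] at this
      simp only [map_sum, map_smul, Finsupp.finsetSum_apply, Finsupp.smul_apply, smul_eq_mul,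
        map_zero, Finsupp.zero_apply]
      rw [← this]
      exact sum_congr rfl fun _ _ => mul_comm _ _
    rw [eq_comm, ← sub_eq_zero]
    simp only [poly, if_pos h2, map_sum, map_mul, eval_C, eval_dP, ← sum_sub_distrib]
    rw [sum_strs_add]
    refine sum_eq_zero fun z hz => ?_
    have := congrArg (dl (ext0 a) h z * ·) (key z)
    simp only [mul_sum, mul_zero] at this
    rw [← this]
    refine sum_congr rfl fun z' hz' => ?_
    have e1 := dl_append (ext0 a) h z z'
    rw [mem_strs.1 hz] at e1
    have e2 : ∀ t : Bool, algebraMap (ZMod 2) (F i) (bF t) = bF t := fun t => by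
      cases t <;> simp [bF]
    rw [e1, row2, if_pos ((mem_strs.1 hz').trans (mem_strs.1 hz).symm), Algebra.smul_def, map_sub,
      e2, e2]
    ring

end Pool.Agent.MP_d3ab35_lc.H19
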