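import Pool.Agent.MP_d3ab35_lc.H19.Core
import Pool.Agent.MP_d3ab35_lc.H50.Main

/-!
Worlds with low degree extensions: pivot sets, the doubling of addresses, limits.
-/

set_option autoImplicit false

namespace Pool.Agent.MP_d3ab35_lc.H19

open Finset Pool.Agent.Shared.H56
open Pool.Agent.MP_d3ab35_lc.H50 (strs mem_strs card_strs)

/-- a bit as a ring element -/
def bF {R : Type} [Zero R] [One R] (b : Bool) : R := if b then 1 else 0

lemma bF_inj {R : Type} [Ring R] [Nontrivial R] {b b' : Bool} (h : (bF b : R) - bF b' = 0) :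
    b' = b := by
  cases b <;> cases b' <;> simp [bF] at h ⊢

section pivots

variable {R : Type} [Field R]

/-- every position outside `P` is hit by a vector of `U` that otherwise lives on `P` -/
def Inv (U : Submodule R (Str → R)) (P : Finset Str) : Prop :=
  ∀ s, s ∉ P → ∃ w ∈ U, w s = 1 ∧ ∀ s', w s' ≠ 0 → s' = s ∨ (s' ∈ P ∧ s'.length = s.length)

lemma Inv.mono {U : Submodule R (Str → R)} {P P' : Finset Str} (h : Inv U P) (hP : P ⊆ P') :
    Inv U P' := by
  intro s hs
  obtain ⟨w, a, b, c⟩ := h s fun h' => hs (hP h')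
  exact ⟨w, a, b, fun s' h' => (c s' h').imp id fun d => ⟨hP d.1, d.2⟩⟩

lemma inv_top : Inv (⊤ : Submodule R (Str → R)) ∅ := by
  intro s _
  refine ⟨Pi.single s 1, trivial, by simp, fun s' h => Or.inl ?_⟩
  by_contra e
  exact h (Pi.single_eq_of_ne e _)

lemma Inv.pivot {U : Submodule R (Str → R)} {P : Finset Str} (hI : Inv U P) (h : ℕ)
    (φ : (Str → R) →ₗ[R] R) (hφ : ∀ w, (∀ s : Str, s.length = h → w s = 0) → φ w = 0) :
    ∃ s : Str, s.length ≤ h ∧ Inv (U ⊓ LinearMap.ker φ) (insert s P) := by
  choose w hU h1 hs using hI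
  have hlen : ∀ s (a : s ∉ P), φ (w s a) ≠ 0 → s.length = h := by
    intro s a b
    by_contra e
    refine b (hφ _ fun s' e' => ?_)
    by_contra c
    rcases hs s a s' c with rfl | d
    · exact e e'
    · exact e (d.2.symm.trans e')
  by_cases hc : ∃ s, ∃ a : s ∉ P, φ (w s a) ≠ 0
  · obtain ⟨t, a, b⟩ := hc
    refine ⟨t, (hlen t a b).le, fun s hs' => ?_⟩
    have a' : s ∉ P := fun h' => hs' (mem_insert_of_mem h')
    have ne : s ≠ t := fun e => hs' (e ▸ mem_insert_self _ _)
    have z : w t a s = 0 := by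
      by_contra c
      rcases hs t a s c with e | d
      · exact ne e
      · exact a' d.1
    refine ⟨w s a' - (φ (w s a') / φ (w t a)) • w t a,
      ⟨U.sub_mem (hU _ _) (U.smul_mem _ (hU _ _)), ?_⟩, by simp [h1, z], fun s' c => ?_⟩
    · change φ _ = 0
      rw [map_sub, map_smul, smul_eq_mul, div_mul_cancel₀ _ b, sub_self]
    · by_cases c1 : w s a' s' = 0
      · have c2 : φ (w s a') ≠ 0 := fun e => c (by simp [c1, e])
        have c3 : w t a s' ≠ 0 := fun e => c (by simp [c1, e])
        have l := (hlen s a' c2).trans (hlen t a b).symm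
        rcases hs t a s' c3 with rfl | d
        · exact Or.inr ⟨mem_insert_self _ _, l.symm⟩
        · exact Or.inr ⟨mem_insert_of_mem d.1, d.2.trans l.symm⟩
      · exact (hs s a' s' c1).imp id fun d => ⟨mem_insert_of_mem d.1, d.2⟩
  · push Not at hc
    refine ⟨[], Nat.zero_le _, fun s hs' => ?_⟩
    have a' : s ∉ P := fun h' => hs' (mem_insert_of_mem h')
    exact ⟨w s a', ⟨hU _ _, hc s a'⟩, h1 _ _,
      fun s' c => (hs s a' s' c).imp id fun d => ⟨mem_insert_of_mem d.1, d.2⟩⟩

lemma Inv.vec {U : Submodule R (Str → R)} {P : Finset Str} (hI : Inv U P) (s : Str) (c : R)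
    (hc : s ∈ P → c = 0) : ∃ w ∈ U, w s = c ∧ ∀ s' : Str, s'.length ≠ s.length → w s' = 0 := by
  by_cases h : s ∈ P
  · exact ⟨0, U.zero_mem, (hc h).symm, fun _ _ => rfl⟩
  · obtain ⟨w, a, b, d⟩ := hI s h
    refine ⟨c • w, U.smul_mem _ a, by simp [b], fun s' e => ?_⟩
    have : w s' = 0 := by
      by_contra f
      rcases d s' f with rfl | g
      · exact e rfl
      · exact e g.2
    simp [this]

/-- the functional with coefficients `g` on the strings of length `h` -/
noncomputable def func (h : ℕ) (g : Str → R) : (Str → R) →ₗ[R] R :=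
  ∑ s ∈ strs h, g s • LinearMap.proj s

lemma func_apply (h : ℕ) (g w : Str → R) : func h g w = ∑ s ∈ strs h, g s * w s := by
  simp [func, LinearMap.sum_apply]

lemma func_zero (h : ℕ) (g w : Str → R) (hw : ∀ s : Str, s.length = h → w s = 0) :
    func h g w = 0 := by
  rw [func_apply]
  exact sum_eq_zero fun s hs => by rw [hw s (mem_strs.1 hs), mul_zero]

end pivots

lemma ultra {α : Type} [Finite α] (f : ℕ → α) :
    ∃ a, ∀ᶠ n in (Filter.hyperfilter ℕ : Filter ℕ), f n = a := by
  obtain ⟨a, ha⟩ := Ultrafilter.eq_pure_of_finite ((Filter.hyperfilter ℕ).map f)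
  refine ⟨a, ?_⟩
  have : {a} ∈ (Filter.hyperfilter ℕ).map f := by rw [ha]; simp
  exact this

section worlds

variable {ι : Type} (F : ι → Type) [∀ i, Field (F i)]

/-- worlds: an oracle and off diagonal entries over every field -/
def World : Type := (Str → Bool) × ∀ i, Str → Str → F i

/-- constraint states -/
def State : Type :=
  Submodule (ZMod 2) (Str → ZMod 2) × (∀ i, Submodule (F i) (Str → F i)) × Finset Str

variable {F}

/-- the matrix of a world over a field -/
def Mf (ω : World F) (i : ι) (p p' : Str) : F i := if p = p' then bF (ω.1 p) else ω.2 i p p'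

/-- differences of rows of the oracles -/
def row2 (ω ω' : World F) (z : Str) : Str → ZMod 2 := fun z' =>
  if z'.length = z.length then bF (ω.1 (z ++ z')) - bF (ω'.1 (z ++ z')) else 0

/-- differences of rows of the matrices -/
def rowF (ω ω' : World F) (i : ι) (p : Str) : Str → F i := fun p' =>
  if p'.length = p.length then Mf ω i p p' - Mf ω' i p p' else 0

/-- agreement of worlds under a state -/
def Ag (k : State F) (ω ω' : World F) : Prop :=
  (∀ p : Str, p.length % 2 = 1 → ω'.1 p = ω.1 p) ∧ (∀ z, row2 ω ω' z ∈ k.1) ∧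
    ∀ i p, rowF ω ω' i p ∈ k.2.1 i

/-- valid pivot sets -/
def Ok (k : State F) (D : Finset Str) : Prop :=
  Inv k.1 D ∧ (∀ i, Inv (k.2.1 i) k.2.2) ∧
    ∀ z z' : Str, z'.length = z.length → z ++ z' ∈ k.2.2 → ∀ w ∈ k.1, w z' = 0

lemma ag_refl (k : State F) (ω : World F) : Ag k ω ω := by
  refine ⟨fun _ _ => rfl, fun z => ?_, fun i p => ?_⟩
  · have : row2 ω ω z = 0 := by funext z'; simp [row2]
    rw [this]; exact Submodule.zero_mem _
  · have : rowF ω ω i p = 0 := by funext z'; simp [rowF]
    rw [this]; exact Submodule.zero_mem _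

lemma ag_trans (k : State F) (ω ω' ω'' : World F) (h : Ag k ω ω') (h' : Ag k ω' ω'') :
    Ag k ω ω'' := by
  refine ⟨fun p e => (h'.1 p e).trans (h.1 p e), fun z => ?_, fun i p => ?_⟩
  · have : row2 ω ω'' z = row2 ω ω' z + row2 ω' ω'' z := by
      funext z'
      simp only [row2, Pi.add_apply]
      split_ifs <;> simp
    rw [this]; exact Submodule.add_mem _ (h.2.1 z) (h'.2.1 z)
  · have : rowF ω ω'' i p = rowF ω ω' i p + rowF ω' ω'' i p := by
      funext z'
      simp only [rowF, Pi.add_apply]
      split_ifs <;> simp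
    rw [this]; exact Submodule.add_mem _ (h.2.2 i p) (h'.2.2 i p)

lemma split_even (p : Str) (h : p.length % 2 = 0) :
    ∃ z z' : Str, z'.length = z.length ∧ p = z ++ z' :=
  ⟨p.take (p.length / 2), p.drop (p.length / 2), by simp; omega, by simp⟩

lemma flip_world (k : State F) (D : Finset Str) (ω : World F) (V : Str → Bool) (hk : Ok k D)
    (hV : ∀ s ∈ D, V s = ω.1 (s ++ s)) :
    ∃ ω' : World F, Ag k ω ω' ∧ (fun s => ω'.1 (s ++ s)) = V := by
  classical
  obtain ⟨h1, h2, h3⟩ := hk
  choose w wU wz wl using fun z => h1.vec z (bF (ω.1 (z ++ z)) - bF (V z))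
    fun h => by rw [hV z h, sub_self]
  let O' : Str → Bool := fun p => if p.length % 2 = 1 then ω.1 p else
    decide (bF (ω.1 p) - w (p.take (p.length / 2)) (p.drop (p.length / 2)) = 1)
  have hO : ∀ z z' : Str, z'.length = z.length →
      (bF (O' (z ++ z')) : ZMod 2) = bF (ω.1 (z ++ z')) - w z z' := by
    intro z z' e
    have e1 : (z ++ z').length / 2 = z.length := by simp; omega
    have e2 : ¬ (z ++ z').length % 2 = 1 := by simp; omega
    simp only [O', if_neg e2, e1, List.take_left', List.drop_left']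
    generalize bF (ω.1 (z ++ z')) - w z z' = x
    revert x
    decide
  have hP : ∀ p ∈ k.2.2, O' p = ω.1 p := by
    intro p hp
    by_cases e : p.length % 2 = 1
    · simp only [O', if_pos e]
    · obtain ⟨z, z', a, rfl⟩ := split_even p (by omega)
      have := hO z z' a
      rw [h3 z z' a hp _ (wU z), sub_zero] at this
      exact bF_inj (R := ZMod 2) (by rw [this, sub_self])
  choose W WU Wz Wl using fun i p => (h2 i).vec p (bF (ω.1 p) - bF (O' p))
    fun h => by rw [hP p h, sub_self]
  refine ⟨(O', fun i p p' => ω.2 i p p' - W i p p'), ⟨fun p e => by simp only [O', if_pos e],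
    fun z => ?_, fun i p => ?_⟩, funext fun s => ?_⟩
  · have : row2 ω (O', fun i p p' => ω.2 i p p' - W i p p') z = w z := by
      funext z'
      simp only [row2]
      split_ifs with e
      · rw [hO z z' e]; ring
      · exact (wl z z' e).symm
    rw [this]; exact wU z
  · have : rowF ω (O', fun i p p' => ω.2 i p p' - W i p p') i p = W i p := by
      funext p'
      simp only [rowF, Mf]
      split_ifs with e e'
      · rw [← e', Wz]
      · ring
      · exact (Wl i p p' e).symm
    rw [this]; exact WU i p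
  · have := hO s s rfl
    rw [wz] at this
    exact bF_inj (R := ZMod 2) (by rw [this]; ring)

lemma lim_world [∀ i, Finite (F i)] (k : ℕ → State F) (c ω : ℕ → World F)
    (h : ∀ n m, n ≤ m → Ag (k n) (c n) (ω m)) : ∃ ω' : World F, (∀ n, Ag (k n) (c n) ω') ∧
      ∀ s n, ∃ m, n ≤ m ∧ ω'.1 (s ++ s) = (ω m).1 (s ++ s) := by
  choose O hO using fun p => ultra fun n => (ω n).1 p
  choose M hM using fun i p p' => ultra fun n => (ω n).2 i p p'
  have hge : ∀ n : ℕ, ∀ᶠ m in (Filter.hyperfilter ℕ : Filter ℕ), n ≤ m := fun n =>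
    Nat.hyperfilter_le_atTop (Filter.eventually_ge_atTop n)
  refine ⟨(O, M), fun n => ⟨fun p e => ?_, fun z => ?_, fun i p => ?_⟩, fun s n => ?_⟩
  · obtain ⟨m, a, b⟩ := ((hge n).and (hO p)).exists
    exact b.symm.trans ((h n m a).1 p e)
  · obtain ⟨m, a, b⟩ := ((hge n).and ((Filter.eventually_all_finset (strs z.length)).2
      fun z' _ => hO (z ++ z'))).exists
    have : row2 (c n) (O, M) z = row2 (c n) (ω m) z := by
      funext z'
      simp only [row2]
      split_ifs with e
      · rw [b z' (mem_strs.2 e)]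
      · rfl
    rw [this]; exact (h n m a).2.1 z
  · obtain ⟨m, a, b, d⟩ := ((hge n).and ((hO p).and
      ((Filter.eventually_all_finset (strs p.length)).2 fun p' _ => hM i p p'))).exists
    have : rowF (c n) (O, M) i p = rowF (c n) (ω m) i p := by
      funext p'
      simp only [rowF, Mf]
      split_ifs with e e'
      · rw [b]
      · rw [d p' (mem_strs.2 e)]
      · rfl
    rw [this]; exact (h n m a).2.2 i p
  · obtain ⟨m, a, b⟩ := ((hge n).and (hO (s ++ s))).exists
    exact ⟨m, a, b.symm⟩

variable (F) in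
/-- the system of algebraic worlds -/
noncomputable def flipF [∀ i, Finite (F i)] : Flip (World F) Str where
  K := State F
  Ag := Ag
  Ok := Ok
  bit ω s := ω.1 (s ++ s)
  k0 := (⊤, fun _ => ⊤, ∅)
  w0 := (fun _ => false, fun _ _ _ => 0)
  ok0 := ⟨inv_top, fun _ => inv_top, fun _ _ _ h => absurd h (notMem_empty _)⟩
  refl := ag_refl
  trans := ag_trans
  mono _ _ _ h hD := ⟨h.1.mono hD, h.2⟩
  flip := flip_world
  lim := lim_world

variable [∀ i, Finite (F i)]

/-- weight of a position -/
def wt (s : Str) : ℕ := s.length + 1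

lemma step_imp {w w' : ℕ} {e e' : World F → World F → Prop} (h : (flipF F).Step wt w e)
    (hw : w ≤ w') (he : ∀ ω ω', (∀ p : Str, p.length % 2 = 1 → ω'.1 p = ω.1 p) → e ω ω' → e' ω ω') :
    (flipF F).Step wt w' e' := by
  intro k D hD
  obtain ⟨k', s, a, b, c, d⟩ := h k D hD
  exact ⟨k', s, a, b.trans hw, c, fun ω ω' h' => he ω ω' h'.1 (d ω ω' h')⟩

lemma step_lin (h : ℕ) (g : Str → ZMod 2) :
    (flipF F).Step wt (h + 1) fun ω ω' => ∀ z, func h g (row2 ω ω' z) = 0 := by
  rintro ⟨U, U', P⟩ D ⟨h1, h2, h3⟩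
  obtain ⟨s, a, b⟩ := h1.pivot h (func h g) (func_zero h g)
  exact ⟨(U ⊓ LinearMap.ker (func h g), U', P), s, ⟨b, h2, fun z z' e f w hw => h3 z z' e f w hw.1⟩,
    Nat.succ_le_succ a, fun ω ω' c => ⟨c.1, fun z => (c.2.1 z).1, c.2.2⟩,
    fun ω ω' c z => (c.2.1 z).2⟩

lemma step_fld (i : ι) (m : ℕ) (g : Str → F i) :
    (flipF F).Step wt (m + 1) fun ω ω' => ∀ p, func m g (rowF ω ω' i p) = 0 := by
  classical
  rintro ⟨U, U', P⟩ D ⟨h1, h2, h3⟩
  obtain ⟨t, a, b⟩ := (h2 i).pivot m (func m g) (func_zero m g)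
  obtain ⟨s, a', b'⟩ := h1.pivot (t.drop (t.length / 2)).length
    (LinearMap.proj (t.drop (t.length / 2))) fun w hw => hw _ rfl
  have hle : ∀ j, Function.update U' i (U' i ⊓ LinearMap.ker (func m g)) j ≤ U' j := by
    intro j
    by_cases e : j = i
    · subst e; rw [Function.update_self]; exact inf_le_left
    · rw [Function.update_of_ne e]
  refine ⟨(U ⊓ LinearMap.ker (LinearMap.proj (t.drop (t.length / 2))),
    Function.update U' i (U' i ⊓ LinearMap.ker (func m g)), insert t P), s,
    ⟨b', fun j => ?_, fun z z' e f w hw => ?_⟩, ?_,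
    fun ω ω' c => ⟨c.1, fun z => (c.2.1 z).1, fun j p => hle j (c.2.2 j p)⟩, fun ω ω' c p => ?_⟩
  · by_cases e : j = i
    · subst e
      simpa only [Function.update_self] using b
    · simpa only [Function.update_of_ne e] using (h2 j).mono (subset_insert _ _)
  · rcases mem_insert.1 f with f | f
    · have e1 : t.drop (t.length / 2) = z' := by
        rw [← f, show (z ++ z').length / 2 = z.length by simp; omega, List.drop_left' rfl]
      have := hw.2
      rw [e1] at this
      exact this
    · exact h3 z z' e f w hw.1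
  · simp only [wt, List.length_drop] at a' ⊢
    omega
  · have := c.2.2 i p
    simp only [Function.update_self] at this
    exact this.2

lemma step_bool (p : Str) :
    (flipF F).Step wt (p.length + 1) fun ω ω' => ω'.1 p = ω.1 p := by
  by_cases e : p.length % 2 = 1
  · exact step_imp (step_lin 0 0) (by omega) fun ω ω' h _ => h p e
  · obtain ⟨z, z', a, rfl⟩ := split_even p (by omega)
    refine step_imp (step_lin z'.length (Pi.single z' 1)) (by simp) fun ω ω' _ h => ?_
    have := h z
    rw [func_apply, sum_eq_single z' (fun s _ hs => by simp [hs])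
      (fun h => absurd (mem_strs.2 rfl) h)] at this
    simp only [Pi.single_eq_same, one_mul, row2, if_pos a] at this
    exact bF_inj this

end worlds

end Pool.Agent.MP_d3ab35_lc.H19
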