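import Pool.Agent.MP_d3ab35_lc.H19.Defs
import Pool.Agent.MP_d3ab35_lc.H50.Main

/-!
Block sizes from a function above the half-exponential threshold.
-/

set_option autoImplicit false

namespace Pool.Agent.MP_d3ab35_lc.H19

open Polynomial Pool.Agent.MP_d3ab35_lc.H50 Pool.Agent.Shared.H56

section

variable {f : ℕ → ℕ} (h0 : 0 < f 0) (hm : Monotone f)
  (hT : ∀ k : ℕ, ∀ᶠ n : ℕ in Filter.atTop, n ^ k ≤ f (2 ^ (f n / k)))

include hm hT in
lemma log_le : ∃ n0, ∀ n, n0 ≤ n → n < 2 ^ f n := by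
  obtain ⟨n0, h⟩ := Filter.eventually_atTop.1 (hT 1)
  refine ⟨n0, fun n hn => ?_⟩
  by_contra c
  have h1 := h n hn
  rw [pow_one, Nat.div_one] at h1
  have h2 := hm (not_lt.1 c)
  have h3 : f n < 2 ^ f n := Nat.lt_two_pow_self
  omega

include h0 hm hT in
lemma pow_lt (k : ℕ) : ∃ G, ∀ r, 2 * (r + 2) ^ (k + 1) < 2 ^ (G * f r) := by
  obtain ⟨n0, h⟩ := log_le hm hT
  refine ⟨(n0 + 2) * (k + 1) + 2, fun r => ?_⟩
  have h1 : 1 ≤ f r := h0.trans_le (hm (Nat.zero_le r))
  have h2 : r + 2 ≤ 2 ^ ((n0 + 2) * f r) := by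
    by_cases c : n0 ≤ r
    · have h3 := h r c
      have h4 : 2 ≤ 2 ^ f r := Nat.le_self_pow (by omega) 2
      calc r + 2 ≤ 2 ^ f r * 2 ^ f r := by nlinarith
        _ = 2 ^ (2 * f r) := by rw [← pow_add]; congr 1; omega
        _ ≤ _ := Nat.pow_le_pow_right (by norm_num) (Nat.mul_le_mul_right _ (by omega))
    · calc r + 2 ≤ n0 + 2 := by omega
        _ ≤ 2 ^ (n0 + 2) := Nat.lt_two_pow_self.le
        _ ≤ _ := Nat.pow_le_pow_right (by norm_num) (Nat.le_mul_of_pos_right _ h1)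
  have h3 := Nat.pow_le_pow_left h2 (k + 1)
  rw [← pow_mul] at h3
  have h4 : 0 < 2 ^ ((n0 + 2) * f r * (k + 1)) := by positivity
  calc 2 * (r + 2) ^ (k + 1) < 2 ^ ((n0 + 2) * f r * (k + 1)) * 2 ^ 2 := by omega
    _ = 2 ^ ((n0 + 2) * f r * (k + 1) + 2) := by rw [← pow_add]
    _ ≤ _ := Nat.pow_le_pow_right (by norm_num) (by nlinarith)

include h0 hm hT in
lemma cross (k k' : ℕ) : ∃ G, ∀ r r', f r ≤ 3 * (r' + 2) ^ (k' + 1) + 3 →
    2 * (r + 2) ^ (k + 1) ≤ 2 ^ f r' ∨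
      (3 * (r' + 2) ^ (k' + 1) + 3 < G ∧ 2 * (r + 2) ^ (k + 1) ≤ 2 ^ G) := by
  obtain ⟨n0, h1⟩ := log_le hm hT
  obtain ⟨n1, h2⟩ := Filter.eventually_atTop.1 (hT (2 * (k + 1) + 2 * (k' + 1) + 2))
  obtain ⟨A, hA⟩ := pow_lt h0 hm hT k
  obtain ⟨M, hM⟩ : ∃ M, M = 3 * (n0 + n1 + 2 ^ (2 * k + 4) + 3 + 2) ^ (k' + 1) + 3 := ⟨_, rfl⟩
  refine ⟨M + 1 + A * M, fun r r' h => ?_⟩
  by_cases c : n0 + n1 + 2 ^ (2 * k + 4) + 3 ≤ r'
  · left
    have a0 : 0 < 2 ^ (2 * k + 4) := by positivity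
    have a1 := h1 r' (by omega)
    have a2 := h2 r' (by omega)
    have a3 : 2 * k + 4 < f r' :=
      (Nat.pow_lt_pow_iff_right (a := 2) (by norm_num)).1 (by omega)
    have a4 : 3 ≤ r' := by omega
    have a5 : (r' + 2) ^ (k' + 1) ≤ r' ^ (2 * (k' + 1)) := by
      rw [pow_mul]; exact Nat.pow_le_pow_left (by nlinarith) _
    have a6 : r' ^ (2 * (k' + 1)) * 9 ≤ r' ^ (2 * (k + 1) + 2 * (k' + 1) + 2) := by
      calc r' ^ (2 * (k' + 1)) * 9 ≤ r' ^ (2 * (k' + 1)) * r' ^ 2 :=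
            Nat.mul_le_mul_left _ (by nlinarith)
        _ = r' ^ (2 * (k' + 1) + 2) := by rw [← pow_add]
        _ ≤ _ := Nat.pow_le_pow_right (by omega) (by omega)
    have a7 : 0 < r' ^ (2 * (k' + 1)) := by positivity
    have a8 : r < 2 ^ (f r' / (2 * (k + 1) + 2 * (k' + 1) + 2)) := by
      by_contra d
      have := hm (not_lt.1 d)
      omega
    have a9 := Nat.div_mul_le_self (f r') (2 * (k + 1) + 2 * (k' + 1) + 2)
    generalize f r' / (2 * (k + 1) + 2 * (k' + 1) + 2) = t at a8 a9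
    have b1 : r + 2 ≤ 2 ^ (t + 1) := by rw [pow_succ]; omega
    have b2 := Nat.pow_le_pow_left b1 (k + 1)
    rw [← pow_mul] at b2
    calc 2 * (r + 2) ^ (k + 1) ≤ 2 ^ ((t + 1) * (k + 1) + 1) := by rw [pow_succ 2]; omega
      _ ≤ _ := Nat.pow_le_pow_right (by norm_num) (by nlinarith)
  · right
    have a1 : (r' + 2) ^ (k' + 1) ≤ (n0 + n1 + 2 ^ (2 * k + 4) + 3 + 2) ^ (k' + 1) :=
      Nat.pow_le_pow_left (by omega) _
    refine ⟨by omega, (hA r).le.trans (Nat.pow_le_pow_right (by norm_num) ?_)⟩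
    have := Nat.mul_le_mul_left A (show f r ≤ M by omega)
    omega

include h0 hm hT in
lemma exists_F : ∃ F : ℕ → ℕ, (∀ m, 2 * m < 2 ^ F m) ∧
    (∀ n m m', 2 ^ F m ≤ 8 ^ (n + 1) → n ≤ m' → 2 * m ≤ 2 ^ F m') ∧
    ∀ p : ℕ[X], ∃ c, ∀ n, F (p.eval n) + 1 ≤ c * f n := by
  classical
  choose A hA using pow_lt h0 hm hT
  choose G hG using cross h0 hm hT
  have pos : ∀ r, 1 ≤ f r := fun r => h0.trans_le (hm (Nat.zero_le r))
  obtain ⟨C, C0, C1, C2⟩ : ∃ C : ℕ → ℕ, (∀ k, 1 ≤ C k) ∧ (∀ k, A k ≤ C k) ∧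
      ∀ k k', k' ≤ k → G k k' ≤ C k ∧ G k' k ≤ C k := by
    refine ⟨fun k => 1 + A k + ∑ j ∈ Finset.range (k + 1), (G k j + G j k),
      fun k => by simp only; omega, fun k => by simp only; omega, fun k k' h => ?_⟩
    have := Finset.single_le_sum (f := fun j => G k j + G j k) (fun _ _ => Nat.zero_le _)
      (Finset.mem_range.2 (show k' < k + 1 by omega))
    simp only at this ⊢
    omega
  have ex : ∀ k m, ∃ n, m ≤ (n + 2) ^ (k + 1) := fun k m =>
    ⟨m, le_trans (by omega) (Nat.le_self_pow (by omega) _)⟩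
  have ex2 : ∀ m, ∃ v, ∃ k, v = C k * f (Nat.find (ex k m)) := fun m => ⟨_, 0, rfl⟩
  refine ⟨fun m => Nat.find (ex2 m), fun m => ?_, fun n m m' h1 h2 => ?_, fun p => ?_⟩
  · obtain ⟨k, hk⟩ := Nat.find_spec (ex2 m)
    have a := Nat.find_spec (ex k m)
    have b := hA k (Nat.find (ex k m))
    have c := Nat.pow_le_pow_right (n := 2) (by norm_num)
      (Nat.mul_le_mul_right (f (Nat.find (ex k m))) (C1 k))
    simp only [hk]
    omega
  · obtain ⟨k, hk⟩ := Nat.find_spec (ex2 m)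
    obtain ⟨k', hk'⟩ := Nat.find_spec (ex2 m')
    have a := Nat.find_spec (ex k m)
    have a' := Nat.find_spec (ex k' m')
    simp only [hk, hk'] at h1 ⊢
    rw [show (8 : ℕ) = 2 ^ 3 by norm_num, ← pow_mul,
      Nat.pow_le_pow_iff_right (by norm_num)] at h1
    generalize Nat.find (ex k m) = r at *
    generalize Nat.find (ex k' m') = r' at *
    have b1 := Nat.le_mul_of_pos_left (f r) (C0 k)
    have b2 := Nat.le_mul_of_pos_right (C k) (pos r)
    have b3 := Nat.le_mul_of_pos_left (f r') (C0 k')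
    have b4 := Nat.le_mul_of_pos_right (C k') (pos r')
    rcases hG k k' r r' (by omega) with d | ⟨d1, d2⟩
    · have := Nat.pow_le_pow_right (n := 2) (by norm_num) b3
      omega
    · rcases le_total k' k with e | e
      · have := (C2 k k' e).1
        omega
      · have := Nat.pow_le_pow_right (n := 2) (by norm_num) ((C2 k' k e).2.trans b4)
        omega
  · obtain ⟨K, hK⟩ := poly_le p
    refine ⟨C K + 1, fun n => ?_⟩
    have a : Nat.find (ex K (p.eval n)) ≤ n :=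
      Nat.find_min' _ ((hK n).trans (Nat.pow_le_pow_right (by omega) (by omega)))
    have b : Nat.find (ex2 (p.eval n)) ≤ C K * f (Nat.find (ex K (p.eval n))) :=
      Nat.find_min' _ ⟨K, rfl⟩
    have c := Nat.mul_le_mul_left (C K) (hm a)
    have d := pos n
    simp only [add_mul]
    omega

end

lemma subpoly_le {f : ℕ → ℕ} (hm : Monotone f) (h : Subpoly f) : ∃ C, ∀ n, f n ≤ n + C := by
  obtain ⟨n0, h1⟩ := Filter.eventually_atTop.1 (h 1 one_pos)
  refine ⟨f n0, fun n => ?_⟩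
  by_cases c : n0 ≤ n
  · have := h1 n c
    rw [Real.rpow_one] at this
    have : f n ≤ n := by exact_mod_cast this
    omega
  · have := hm (show n ≤ n0 by omega)
    omega

lemma pt_ff : PT fun x : Str => ff x.length := by
  have key : ∀ x : Str, ff x.length = 2 ^ min (((List.range (sz x.length + 1)).filter
      fun j => decide ((j + 1) * (j + 1) ≤ sz x.length)).length) (sz x.length) := by
    intro x
    rw [sz_nat, ff]
    generalize x.length.size = s
    have h1 := Nat.sqrt_le_self s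
    have h2 : ((List.range (s + 1)).filter fun j => decide ((j + 1) * (j + 1) ≤ s)) =
        List.range s.sqrt := by
      have h3 : s + 1 = s.sqrt + (s + 1 - s.sqrt) := by omega
      rw [h3, List.range_add, List.filter_append, List.filter_eq_self.2, List.filter_eq_nil_iff.2,
        List.append_nil]
      · intro a ha
        obtain ⟨b, -, rfl⟩ := List.mem_map.1 ha
        simp only [decide_eq_true_eq, ← Nat.le_sqrt]
        omega
      · intro a ha
        simp only [decide_eq_true_eq, ← Nat.le_sqrt]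
        exact List.mem_range.1 ha
    rw [h2, List.length_range, min_eq_left h1]
  have h1 : PT fun a : Str => un (sz a.length) := by fun_prop
  have h2 : PT fun a : Str => un (sz a.length + 1) := h1.un_add (PT.const _)
  have h3 : PT fun a : Str × ℕ => un (sz a.1.length) := by fun_prop
  have h4 : PT fun a : Str × ℕ => sz a.1.length := h3.of_un
  have h5 : PT fun a : Str => (List.range (sz a.length + 1)).filter
      fun j => decide ((j + 1) * (j + 1) ≤ sz a.length) :=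
    PT.filter (f := fun (a : Str) j => decide ((j + 1) * (j + 1) ≤ sz a.length))
      (PT.decLe (by fun_prop) h4) (PT.range h2)
  exact (PT.pow (PT.const 2) (PT.un_min h5.length h1)).congr fun a => (key a).symm

lemma adm_ff : Adm ff := by
  refine ⟨by simp [ff], fun a b h => Nat.pow_le_pow_right (by norm_num)
    (Nat.sqrt_le_sqrt (Nat.size_le_size h)), ff_subpoly, pt_ff.isPolyTime, fun k => ?_⟩
  rcases Nat.eq_zero_or_pos k with rfl | hk
  · exact Filter.Eventually.of_forall fun n => by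
      rw [pow_zero]; exact Nat.one_le_two_pow
  obtain ⟨s0, hs0⟩ : ∃ s0, ∀ s, s0 ≤ s → k ^ 3 * (s + 1) ^ 4 ≤ 2 ^ s := by
    have h := tendsto_pow_const_div_const_pow_of_one_lt 4 (show (1 : ℝ) < 2 by norm_num)
    have h1 : (0 : ℝ) < 1 / (2 * k ^ 3) := by positivity
    obtain ⟨s0, h2⟩ := Filter.eventually_atTop.1 (h.eventually (gt_mem_nhds h1))
    refine ⟨s0, fun s hs => ?_⟩
    have h3 := h2 (s + 1) (by omega)
    rw [div_lt_div_iff₀ (by positivity) (by positivity), pow_succ (2 : ℝ)] at h3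
    have h4 : ((k ^ 3 * (s + 1) ^ 4 : ℕ) : ℝ) ≤ ((2 ^ s : ℕ) : ℝ) := by
      push_cast at h3 ⊢
      nlinarith
    exact_mod_cast h4
  filter_upwards [Filter.eventually_ge_atTop (2 ^ (s0 * s0))] with n hn
  have h1 : s0 * s0 < n.size := Nat.lt_size.2 hn
  have h2 := hs0 _ (Nat.le_sqrt.2 h1.le)
  have h3 := Nat.lt_succ_sqrt n.size
  have h4 := Nat.pow_le_pow_left (Nat.lt_size_self n).le k
  rw [← pow_mul] at h4
  refine h4.trans ?_
  rw [ff, Nat.size_pow]
  refine Nat.pow_le_pow_right (by norm_num) (Nat.le_sqrt.2 (Nat.le_succ_of_le ?_))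
  rw [Nat.le_div_iff_mul_le hk, ff]
  refine le_trans ?_ h2
  simp only [Nat.succ_eq_add_one] at h3
  calc n.size * k * (n.size * k) * k = k ^ 3 * (n.size * n.size) := by ring
    _ ≤ k ^ 3 * ((n.size.sqrt + 1) * (n.size.sqrt + 1) * ((n.size.sqrt + 1) * (n.size.sqrt + 1))) :=
        Nat.mul_le_mul_left _ (Nat.mul_le_mul h3.le h3.le)
    _ = _ := by ring

end Pool.Agent.MP_d3ab35_lc.H19
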