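import Pool.Agent.MP_d3ab35_lc.H19.Ext
import Pool.Agent.MP_d3ab35_lc.H19.Num

/-!
The oracle and its extension.
-/

set_option autoImplicit false

namespace Pool.Agent.MP_d3ab35_lc.H19

open Polynomial Pool.Agent.Shared.H56 Function Pool.Agent.MP_d3ab35_lc.H50

/-- number of steps needed to fix a query -/
def cost : Str → ℕ
  | false :: _ => 1
  | q => q.length + 1

lemma cost_le (q : Str) : cost q ≤ q.length + 1 := by
  unfold cost
  split <;> simp

/-- the query that reads a virtual bit -/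
def emb (s : Str) : Str := false :: (s ++ s)

lemma wdepth_toDT (q : Str → Bool × Str) (W t : ℕ) :
    ∀ ans : Str, (∀ l : Str, l.length ≤ ans.length + t → (q l).2.length + 1 ≤ W) →
      wdepth cost (toDT q t ans) ≤ t * W := by
  induction t with
  | zero => intro ans _; simp [toDT, wdepth]
  | succ t ih =>
    intro ans h
    simp only [toDT]
    split_ifs
    · simp only [wdepth]
      have h1 := ih (true :: ans) fun l hl => h l (by simp at hl; omega)
      have h2 := ih (false :: ans) fun l hl => h l (by simp at hl; omega)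
      have h3 := h ans (by omega)
      have h4 := cost_le (q ans).2
      rw [Nat.succ_mul]
      omega
    · simp [wdepth]

lemma wdepth_orTree (l : List Str) : wdepth cost (orTree (l.map emb)) = l.length := by
  induction l with
  | nil => rfl
  | cons s l ih => simp [orTree, wdepth, ih, emb, cost]

lemma po_sim {α : Type} [N487b59b3 α] {V O : Str → Bool} {g : Str → Str} (hg : PT g)
    (h : ∀ s, V s = O (g s)) {R : α → Bool} (hR : PO V R) : PO O R := by
  obtain ⟨p, q, hq, hR⟩ := hR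
  have hq' := PT.of_isPolyTime hq
  refine ⟨p, fun z => ((q z).1, cond (q z).1 (g (q z).2) (q z).2), PT.isPolyTime (by fun_prop),
    fun a => (hR a).trans ?_⟩
  generalize p.eval (N487b59b3.bitEncode a).length = t
  generalize ([] : Str) = ans
  induction t generalizing ans with
  | zero => rfl
  | succ t ih =>
    simp only [run]
    cases e : (q (a, ans)).1
    · simp
    · simp only [if_true, cond_true, ← h]
      exact ih _

lemma po_join {V O S : Str → Bool} {g : Str → Str} (hg : PT g) (h : ∀ s, V s = O (g s))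
    {R : Str → Bool} (hR : PO (join V S) R) : PO (join O S) R := by
  refine po_sim (g := fun s => cond s.isEmpty [] (cond (s.headD false) s (false :: g s.tail)))
    (by fun_prop) (fun s => ?_) hR
  rcases s with _ | ⟨_ | _, s⟩ <;> simp [join, h]

lemma beta_sub_np' {f : ℕ → ℕ} (hf : Adm f) (A : Str → Bool) : Beta A f ⊆ NPO A := by
  rintro L ⟨c, R, ⟨p, q, hq, hR⟩, hL⟩
  have hq' := PT.of_isPolyTime hq
  obtain ⟨K, hK⟩ := subpoly_le hf.2.1 hf.2.2.1
  have hd : PT fun a : Str × Str => decide (a.2.length ≤ c * f a.1.length) :=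
    PT.decLe (by fun_prop) ((PT.const c).mul ((PT.of_isPolyTime hf.2.2.2.1).comp
      (g := fun a : Str × Str => a.1) (by fun_prop)))
  refine ⟨C c * (X + C K), fun a => decide (a.2.length ≤ c * f a.1.length) && R a,
    ⟨p, fun z => cond (decide (z.1.2.length ≤ c * f z.1.1.length)) (q z) (false, []),
      PT.isPolyTime (PT.cond (hd.comp (g := fun z : (Str × Str) × Str => z.1) (by fun_prop)) hq'
        (PT.const _)), fun a => ?_⟩, fun x => (hL x).trans ⟨?_, ?_⟩⟩
  · cases e : decide (a.2.length ≤ c * f a.1.length) with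
    | true => simpa [e] using hR a
    | false =>
      simp only [e, Bool.false_and, cond_false]
      cases p.eval (N487b59b3.bitEncode a).length <;> simp [run]
  · rintro ⟨y, h1, h2⟩
    refine ⟨y, ?_, by simp [h1, h2]⟩
    simp only [eval_mul, eval_C, eval_add, eval_X]
    exact h1.trans (Nat.mul_le_mul_left _ (hK _))
  · rintro ⟨y, -, h2⟩
    simp only [Bool.and_eq_true, decide_eq_true_eq] at h2
    exact ⟨y, h2.1, h2.2⟩

/-- blocks -/
def blkF (Fb : ℕ → ℕ) (u : Str) : Finset Str := (strs (Fb u.length + 1)).image (code0 u)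

lemma card_blkF (Fb : ℕ → ℕ) (u : Str) : (blkF Fb u).card = 2 ^ (Fb u.length + 1) := by
  rw [blkF, Finset.card_image_of_injective _ fun y y' h => (code0_inj h).2, card_strs]

lemma mem_blkF {Fb : ℕ → ℕ} {u s : Str} :
    s ∈ blkF Fb u ↔ ∃ y : Str, y.length = Fb u.length + 1 ∧ code0 u y = s := by
  simp only [blkF, Finset.mem_image, mem_strs]

/-- the universal nondeterministic predicate -/
def NN2 (u : Str) (A : Str → Bool) : Prop :=
  ∃ i x m, u = inst i x m ∧ ∃ Q : Finset Str, (∑ s ∈ Q, (s.length + 1)) ^ 2 ≤ u.length ∧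
    ∀ A' : Str → Bool, (∀ s ∈ Q, A' s = A s) → Acc i x A'

lemma acc_iff2 (i : ℕ) : ∃ m : ℕ[X], ∀ x A, Acc i x A ↔ NN2 (inst i x (m.eval x.length)) A := by
  obtain ⟨m, hm⟩ := acc_iff i
  refine ⟨(6 * C i + 6 * X + 3 * m + 2) ^ 2, fun x A => ⟨fun h => ?_, ?_⟩⟩
  · obtain ⟨i', x', m', e, Q, h1, h2⟩ := (hm x A).1 h
    obtain ⟨rfl, rfl⟩ := inst_inj e
    refine ⟨i, x, _, rfl, Q, (Nat.pow_le_pow_left h1 2).trans ?_, h2⟩
    rw [length_inst, length_inst]
    simp only [eval_pow, eval_add, eval_mul, eval_ofNat, eval_C, eval_X]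
    omega
  · rintro ⟨i', x', m', e, Q, -, h⟩
    obtain ⟨rfl, rfl⟩ := inst_inj e
    exact h A fun _ _ => rfl

/-- the trees of a family -/
noncomputable def GG2 (Fb : ℕ → ℕ) (x : Str) : (Strat × ℕ[X] × ℕ) ⊕ (ℕ × ℕ[X]) → DT Str
  | .inl M => toDT (fun ans => M.1.1 ((x, List.replicate (2 ^ x.length ^ M.2.2) true), ans))
      (M.2.1.eval (sz (x, List.replicate (2 ^ x.length ^ M.2.2) true))) []
  | .inr M => orTree ((blkF Fb (inst M.1 x (M.2.eval x.length))).toList.map emb)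

open Classical in
/-- the universal tree -/
noncomputable def TT2 (Fb : ℕ → ℕ) (v : Str) : DT Str :=
  if h : ∃ p : ℕ × Str, (∃ m, v = inst p.1 p.2 m) ∧
    wdepth cost (GG2 Fb p.2 (eJ p.1)) ≤ 2 ^ v.length then
    GG2 Fb h.choose.2 (eJ h.choose.1) else .leaf false

lemma depth_TT2 (Fb : ℕ → ℕ) (v : Str) : wdepth cost (TT2 Fb v) ≤ 2 ^ v.length := by
  unfold TT2
  split_ifs with h
  · exact h.choose_spec.2
  · simp [wdepth]

lemma TT2_inst {Fb : ℕ → ℕ} {j m : ℕ} {x : Str} (h : wdepth cost (GG2 Fb x (eJ j)) ≤ 2 ^ m) :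
    TT2 Fb (inst j x m) = GG2 Fb x (eJ j) := by
  have h1 : ∃ p : ℕ × Str, (∃ m', inst j x m = inst p.1 p.2 m') ∧
      wdepth cost (GG2 Fb p.2 (eJ p.1)) ≤ 2 ^ (inst j x m).length :=
    ⟨(j, x), ⟨m, rfl⟩, h.trans (Nat.pow_le_pow_right (by norm_num) (by rw [length_inst]; omega))⟩
  unfold TT2
  rw [dif_pos h1]
  obtain ⟨m', e⟩ := h1.choose_spec.1
  obtain ⟨e1, e2⟩ := inst_inj e
  rw [← e1, ← e2]

theorem exists_world {Ω : Type} (Fl : Flip Ω Str) (ans : Ω → Str → Bool)
    (hq : ∀ q, Fl.Chain wt (cost q) (q.length + 1) fun ω ω' => ans ω' q = ans ω q)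
    (Fb : ℕ → ℕ) (H1 : ∀ m, 2 * m < 2 ^ Fb m)
    (H2 : ∀ n m m', 2 ^ Fb m ≤ 8 ^ (n + 1) → n ≤ m' → 2 * m ≤ 2 ^ Fb m') :
    ∃ (ω : Ω) (adv : ℕ → Str), (∀ u y, Fl.bit ω (code0 u y) = true → NN2 u (ans ω)) ∧
      (∀ u, NN2 u (ans ω) → ∃ s ∈ blkF Fb u, Fl.bit ω s = true) ∧
      (∀ n, (adv n).length = 3 * n + 4) ∧
      ∀ v, Fl.bit ω (code1 v (adv v.length)) = (TT2 Fb v).eval (ans ω) := by
  let sys : Sys Ω Str Str :=
    { F := Fl
      wt := wt
      sz := fun u => u.length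
      N := fun u ω => NN2 u (ans ω)
      own := own
      blk := blkF Fb
      H := fun m => 2 ^ Fb m
      wt_pos := fun s => Nat.succ_pos _
      own_blk := fun u s h => by
        obtain ⟨y, -, rfl⟩ := mem_blkF.1 h
        exact own_eq.2 ⟨y, rfl⟩
      own_wt := fun s u h => by
        obtain ⟨y, rfl⟩ := own_eq.1 h
        have : (code0 u y).length = sz (u, y) + 1 := rfl
        rw [wt, this, sz_pair, sz_list_bool]
        omega
      card_blk := fun u => by rw [card_blkF, pow_succ]; omega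
      cert := by
        rintro u ω ⟨i, x, m, e, Q, h1, h2⟩
        refine (Flip.Batch.finset (fun q => (hq q).batch) Q).imp (le_trans ?_ h1) ?_
        · rw [sq, Finset.sum_mul]
          exact Finset.sum_le_sum fun q hq => Nat.mul_le_mul (cost_le q)
            (Finset.single_le_sum (f := fun s : Str => s.length + 1) (fun _ _ => Nat.zero_le _) hq)
        · rintro _ ω' h rfl
          exact ⟨i, x, m, e, Q, h1, fun A' h' => h2 A' fun s hs => (h' s hs).trans (h s hs)⟩
      h1 := H1 }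
  obtain ⟨A, h1, h2, h3⟩ := Sys.core sys (fun q => ⟨_, hq q⟩) H2 strs (fun _ _ => mem_strs)
    (fun n => (card_strs n).le) strs (fun n => (card_strs n).le) (TT2 Fb)
    (fun n v hv => mem_strs.1 hv ▸ depth_TT2 Fb v) (fun n => strs (3 * n + 4)) (fun n => by
      rw [card_strs, show (8 : ℕ) = 2 ^ 3 by norm_num, ← pow_mul]
      exact Nat.pow_lt_pow_right (by norm_num) (by omega)) code1
    (fun v a v' a' h => Prod.mk.inj (enc_inj (List.cons.inj h).2)) own_code1
  choose adv h4 h5 using h3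
  exact ⟨A, adv, fun u y h => h1 _ u h (own_eq.2 ⟨y, rfl⟩), h2, fun n => mem_strs.1 (h4 n),
    fun v => h5 _ v (mem_strs.2 rfl)⟩

section

variable {f Fb : ℕ → ℕ} (hf : Adm f) (hF : ∀ p : ℕ[X], ∃ c, ∀ n, Fb (p.eval n) + 1 ≤ c * f n)
  {V A : Str → Bool} {adv : ℕ → Str} (h0 : ∀ s, V s = A (emb s))
  (h1 : ∀ u y, V (code0 u y) = true → NN2 u A)
  (h2 : ∀ u, NN2 u A → ∃ s ∈ blkF Fb u, V s = true) (h3 : ∀ n, (adv n).length = 3 * n + 4)
  (h4 : ∀ v, V (code1 v (adv v.length)) = (TT2 Fb v).eval A)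

include hF h1 h2 in
lemma np_sub_beta2 : NPO A ⊆ Beta V f := by
  intro L hL
  obtain ⟨i, hi⟩ := np_index hL
  obtain ⟨m, hm⟩ := acc_iff2 i
  obtain ⟨c, hc⟩ := hF (6 * C i + 6 * X + 3 * m + 2)
  have hp := pt_inst i m
  refine ⟨c, fun a => V (code0 (inst i a.1 (m.eval a.1.length)) a.2), po_query V ?_,
    fun x => (hi x).trans ((hm x A).trans ⟨fun h => ?_, fun ⟨y, _, h⟩ => h1 _ y h⟩)⟩
  · have := hp.comp (g := fun a : Str × Str => a.1) (by fun_prop)
    unfold code0
    fun_prop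
  · obtain ⟨s, a, b⟩ := h2 _ h
    obtain ⟨y, hy, rfl⟩ := mem_blkF.1 a
    refine ⟨y, ?_, b⟩
    rw [hy, length_inst]
    simpa using hc x.length

include h3 h4 in
lemma exp_sub_ppoly2 : EXPO A ⊆ PPolyO V := by
  rintro L ⟨k, R, ⟨p, q, hq, hR⟩, hL⟩
  obtain ⟨j, hj⟩ := eJ_surj (.inl (⟨q, PT.of_isPolyTime hq⟩, p, k))
  obtain ⟨B, hB⟩ := (PT.of_isPolyTime hq).size
  obtain ⟨m, hm⟩ := exp_poly (p * (B.comp (2 * X + 1 + 3 * p) + 1)) k
  have hp := pt_inst j m
  refine ⟨3 * (6 * C j + 6 * X + 3 * m + 2) + 4, fun n => adv (6 * j + 6 * n + 3 * m.eval n + 2),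
    fun a => V (code1 (inst j a.1 (m.eval a.1.length)) a.2), po_query V ?_, fun n => ?_,
    fun x => ?_⟩
  · have := hp.comp (g := fun a : Str × Str => a.1) (by fun_prop)
    unfold code1
    fun_prop
  · simp [h3]
  · beta_reduce
    rw [← length_inst, h4, TT2_inst, hj, hL, hR]
    · exact (eval_toDT _ _ _ _).symm
    · rw [hj]
      have e : sz (x, List.replicate (2 ^ x.length ^ k) true) =
          6 * x.length + 1 + 3 * 2 ^ x.length ^ k := by
        rw [sz_pair, sz_list_bool, sz_list_bool, List.length_replicate]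
        omega
      refine (wdepth_toDT _ ((B.comp (2 * X + 1 + 3 * p) + 1).eval
        (6 * x.length + 1 + 3 * 2 ^ x.length ^ k)) _ _ fun l hl => ?_).trans ?_
      · have c1 := hB ((x, List.replicate (2 ^ x.length ^ k) true), l)
        have c2 : sz ((x, List.replicate (2 ^ x.length ^ k) true), l) ≤
            (2 * X + 1 + 3 * p).eval (6 * x.length + 1 + 3 * 2 ^ x.length ^ k) := by
          rw [sz_pair, sz_list_bool l, e]
          simp only [eval_add, eval_mul, eval_ofNat, eval_one, eval_X]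
          simp only [List.length_nil, e] at hl
          omega
        have c3 := poly_mono B c2
        have c4 : sz (q ((x, List.replicate (2 ^ x.length ^ k) true), l)) =
            2 * sz (q ((x, List.replicate (2 ^ x.length ^ k) true), l)).1 + 1 +
            sz (q ((x, List.replicate (2 ^ x.length ^ k) true), l)).2 := sz_pair _ _
        rw [sz_list_bool] at c4
        rw [eval_add, eval_comp, eval_one]
        dsimp only
        omega
      · rw [e, ← eval_mul]
        exact hm x.length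

include hf hF h0 h1 h2 h4 in
lemma np_advice2 {L : Str → Bool} (hL : L ∈ NPO A) : ∃ (j : ℕ) (m : ℕ[X]), ∀ x,
    L x = V (code1 (inst j x (m.eval x.length)) (adv (inst j x (m.eval x.length)).length)) := by
  obtain ⟨i, hi⟩ := np_index hL
  obtain ⟨m, hm⟩ := acc_iff2 i
  obtain ⟨c, hc⟩ := hF (6 * C i + 6 * X + 3 * m + 2)
  obtain ⟨j, hj⟩ := eJ_surj (.inr (i, m))
  obtain ⟨K, hK⟩ := subpoly_le hf.2.1 hf.2.2.1
  refine ⟨j, C c * (X + C K), fun x => ?_⟩
  rw [h4, TT2_inst, hj, Bool.eq_iff_iff, hi, hm, GG2, eval_orTree]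
  · simp only [List.mem_map, Finset.mem_toList, exists_exists_and_eq_and, ← h0]
    refine ⟨h2 _, fun ⟨s, a, b⟩ => ?_⟩
    obtain ⟨y, -, rfl⟩ := mem_blkF.1 a
    exact h1 _ y b
  · rw [hj, GG2, wdepth_orTree, Finset.length_toList, card_blkF, length_inst]
    refine Nat.pow_le_pow_right (by norm_num) ?_
    have := (hc x.length).trans (Nat.mul_le_mul_left c (hK x.length))
    simpa using this

include hf hF h0 h1 h2 h3 h4 in
lemma np_sparse {L : Str → Bool} (hL : L ∈ NPO A) : PO (join V (advSet adv)) L := by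
  obtain ⟨j, m, hm⟩ := np_advice2 hf hF h0 h1 h2 h4 hL
  refine ⟨3 * (6 * C j + 6 * X + 3 * m + 2) + 6,
    fun z => rdq (inst j z.1 (m.eval z.1.length)) z.2, PT.isPolyTime ?_, fun x => ?_⟩
  · have h5 := (pt_inst j m).comp (g := fun a : Str × Str => a.1) (by fun_prop)
    have h6 : PT fun z : Str × Str => rdq z.1 z.2 := by
      unfold rdq code1
      fun_prop
    exact h6.comp (g := fun z : Str × Str => (inst j z.1 (m.eval z.1.length), z.2)) (by fun_prop)
  · have h5 : x.length ≤ (N487b59b3.bitEncode x).length := length_le_sz x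
    have h6 := poly_mono (3 * (6 * C j + 6 * X + 3 * m + 2) + 6) h5
    have h7 : (3 * (6 * C j + 6 * X + 3 * m + 2) + 6 : ℕ[X]).eval x.length =
        3 * (inst j x (m.eval x.length)).length + 4 + 2 := by
      rw [length_inst]; simp
    obtain ⟨e, he⟩ := Nat.exists_eq_add_of_le h6
    rw [he, h7, hm x]
    exact (run_rdq V adv _ (h3 _) e _ 0 (by omega)).symm

end

lemma beta_sim {V O : Str → Bool} {g : Str → Str} (hg : PT g) (h : ∀ s, V s = O (g s))
    (f : ℕ → ℕ) : Beta V f ⊆ Beta O f := fun _ ⟨c, R, a, b⟩ => ⟨c, R, po_sim hg h a, b⟩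

lemma ppoly_sim {V O : Str → Bool} {g : Str → Str} (hg : PT g) (h : ∀ s, V s = O (g s)) :
    PPolyO V ⊆ PPolyO O := fun _ ⟨p, adv, R, a, b⟩ => ⟨p, adv, R, po_sim hg h a, b⟩

lemma final {f Fb : ℕ → ℕ} (hf : Adm f) (hF : ∀ p : ℕ[X], ∃ c, ∀ n, Fb (p.eval n) + 1 ≤ c * f n)
    {V O A : Str → Bool} {adv : ℕ → Str} (hV : ∀ s, V s = O (s ++ s))
    (hA : ∀ s, O s = A (false :: s)) (h1 : ∀ u y, V (code0 u y) = true → NN2 u A)
    (h2 : ∀ u, NN2 u A → ∃ s ∈ blkF Fb u, V s = true) (h3 : ∀ n, (adv n).length = 3 * n + 4)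
    (h4 : ∀ v, V (code1 v (adv v.length)) = (TT2 Fb v).eval A) :
    (NPO A = Beta O f ∧ NPO A = Beta A f) ∧
      (∃ S, Sparse S ∧ ∀ L ∈ NPO A, PO (join O S) L ∧ PO (join A S) L) ∧
      EXPO A ⊆ PPolyO O ∧ EXPO A ⊆ PPolyO A := by
  have g1 : PT fun s : Str => s ++ s := by fun_prop
  have g2 : PT fun s : Str => false :: s := by fun_prop
  have a1 := (np_sub_beta2 hF h1 h2).trans (beta_sim g1 hV f)
  have a2 := beta_sim g2 hA f
  have a3 := (exp_sub_ppoly2 h3 h4).trans (ppoly_sim g1 hV)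
  refine ⟨⟨a1.antisymm (a2.trans (beta_sub_np' hf _)), (a1.trans a2).antisymm (beta_sub_np' hf _)⟩,
    ⟨advSet adv, advSet_sparse adv, fun L hL => ?_⟩, a3, a3.trans (ppoly_sim g2 hA)⟩
  have a4 := po_join g1 hV (np_sparse hf hF (fun s => (hV s).trans (hA _)) h1 h2 h3 h4 hL)
  exact ⟨a4, po_join g2 hA a4⟩

lemma chain_join {Ω : Type} {Fl : Flip Ω Str} {O E : Ω → Str → Bool}
    (h1 : ∀ s : Str, Fl.Chain wt 1 (s.length + 2) fun ω ω' => O ω' s = O ω s)
    (h2 : ∀ s : Str, Fl.Chain wt (s.length + 2) (s.length + 2) fun ω ω' => E ω' s = E ω s)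
    (q : Str) : Fl.Chain wt (cost q) (q.length + 1)
      fun ω ω' => join (O ω') (E ω') q = join (O ω) (E ω) q := by
  rcases q with _ | ⟨_ | _, s⟩
  · exact ⟨[], Nat.zero_le _, by simp, fun _ _ _ => rfl⟩
  · exact h1 s
  · exact h2 s

theorem main (f : ℕ → ℕ) (hf : Adm f) {ι : Type} (F : ι → Type) [∀ i, Field (F i)]
    [∀ i, Finite (F i)] (idx : Str → ι) (dim : Str → ℕ) (pt : ∀ s, Fin (dim s) → F (idx s))
    (out : ∀ s, F (idx s) → Bool) (hdim : ∀ s, dim s ≤ s.length)
    (hcard : ∀ s, Nat.card (F (idx s)) ≤ 2 ^ (s.length + 1)) :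
    ∃ (O : Str → Bool) (P : ∀ (m : ℕ) (i : ι), MvPolynomial (Fin m) (F i)),
      (∀ m i (x : Fin m → Bool), MvPolynomial.eval (fun l => if x l then 1 else 0) (P m i) =
        if O (List.ofFn x) then 1 else 0) ∧
      (∀ m i l, (P m i).degreeOf l ≤ 2) ∧
      (∀ m i l, CharP (F i) 2 → (P m i).degreeOf l ≤ 1) ∧
      ∀ B, B = join O (fun s => out s (MvPolynomial.eval (pt s) (P (dim s) (idx s)))) →
        (NPO B = Beta O f ∧ NPO B = Beta B f) ∧
        (∃ S, Sparse S ∧ ∀ L ∈ NPO B, PO (join O S) L ∧ PO (join B S) L) ∧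
        EXPO B ⊆ PPolyO O ∧ EXPO B ⊆ PPolyO B := by
  obtain ⟨Fb, H1, H2, hF⟩ := exists_F hf.1 hf.2.1 hf.2.2.2.2
  obtain ⟨ω, adv, h1, h2, h3, h4⟩ := exists_world (flipF F) _ (chain_join (O := fun ω => ω.1)
    (E := fun ω s => out s (MvPolynomial.eval (pt s) (poly ω (dim s) (idx s))))
    (fun s => chain_one (step_imp (step_bool s) (by simp) fun _ _ _ h => h) le_rfl)
    (fun s => by
      obtain ⟨l, a, b, c⟩ := chain_alg (idx s) (dim s) (pt s) _ (hcard s)
      refine ⟨l, by omega, fun e he => step_imp (b e he) ?_ fun _ _ _ h => h,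
        fun ω ω' h => congrArg (out s) (c ω ω' h)⟩
      have := hdim s
      omega)) Fb H1 H2
  refine ⟨ω.1, poly ω, poly_bool ω, poly_quad ω, poly_lin ω, ?_⟩
  rintro B rfl
  exact final hf hF (fun _ => rfl) (fun _ => rfl) h1 h2 h3 h4

end Pool.Agent.MP_d3ab35_lc.H19
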